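import Pool.Agent.V8H82.HT.Reg

set_option autoImplicit false
set_option linter.unusedSectionVars false

/-!
# Sufficient conditions for the kernel condition
-/

namespace Pool.Agent.V8H82.HT

open Finset Matrix Filter Topology Pool.Agent.V8H82.DM
open Pool.Agent.Q181.TG (reg tc Cok Far)
open TH6.LF (adj bar)

section mat

variable {Y : Type} [Fintype Y] [DecidableEq Y]

theorem energy_zero (N : Matrix Y Y ℤ) (hN : DD N) (v : Y → ℤ)
    (h : qf N (fun y => (v y : ℝ)) = 0) : (∀ y, dfc N y ≠ 0 → v y = 0) ∧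
      (∀ y z, z ≠ y → N y z < 0 → v z = v y) ∧ (∀ y z, z ≠ y → 0 < N y z → v z = - v y) := by
  have h1 := en_sum N hN (fun y => (v y : ℝ))
  rw [h, mul_zero] at h1
  have h2 : 0 ≤ ∑ y, (dfc N y : ℝ) * (v y : ℝ) ^ 2 :=
    Finset.sum_nonneg fun y _ => mul_nonneg (by exact_mod_cast hN.dfc_nonneg y) (sq_nonneg _)
  have h3 : 0 ≤ ∑ y, ∑ z, en N (fun y => (v y : ℝ)) y z :=
    Finset.sum_nonneg fun y _ => Finset.sum_nonneg fun z _ => en_nonneg N _ y z
  have h4 : ∑ y, (dfc N y : ℝ) * (v y : ℝ) ^ 2 = 0 := by linarith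
  have h5 : ∑ y, ∑ z, en N (fun y => (v y : ℝ)) y z = 0 := by linarith
  have h6 := (Finset.sum_eq_zero_iff_of_nonneg (fun y _ => mul_nonneg
    (by exact_mod_cast hN.dfc_nonneg y) (sq_nonneg (v y : ℝ)))).1 h4
  have h7 : ∀ y z, en N (fun y => (v y : ℝ)) y z = 0 := by
    intro y z
    have h8 := (Finset.sum_eq_zero_iff_of_nonneg (fun y _ => Finset.sum_nonneg fun z _ =>
      en_nonneg N (fun y => (v y : ℝ)) y z)).1 h5 y (mem_univ y)
    exact (Finset.sum_eq_zero_iff_of_nonneg (fun z _ =>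
      en_nonneg N (fun y => (v y : ℝ)) y z)).1 h8 z (mem_univ z)
  refine ⟨fun y hy => ?_, fun y z hne hyz => ?_, fun y z hne hyz => ?_⟩
  · have h8 := h6 y (mem_univ y)
    rcases mul_eq_zero.1 h8 with h9 | h9
    · exact absurd (by exact_mod_cast h9) hy
    · have h10 : (v y : ℝ) = 0 := by
        rcases pow_eq_zero_iff (two_ne_zero) |>.1 h9 with h
        exact h
      exact_mod_cast h10
  · have h8 := en_neg N (fun y => (v y : ℝ)) y z hne hyz
    rw [h7] at h8
    have h9 : (v y : ℝ) - v z = 0 := by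
      have h10 : ((v y : ℝ) - v z) ^ 2 = 0 := le_antisymm h8 (sq_nonneg _)
      exact pow_eq_zero_iff (two_ne_zero) |>.1 h10
    have h10 : (v z : ℝ) = v y := by linarith
    exact_mod_cast h10
  · have h8 := en_pos N (fun y => (v y : ℝ)) y z hne hyz
    rw [h7] at h8
    have h9 : (v y : ℝ) + v z = 0 := by
      have h10 : ((v y : ℝ) + v z) ^ 2 = 0 := le_antisymm h8 (sq_nonneg _)
      exact pow_eq_zero_iff (two_ne_zero) |>.1 h10
    have h10 : (v z : ℝ) = ((- v y : ℤ) : ℝ) := by
      push_cast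
      linarith
    exact_mod_cast h10

/-- a vector killed by the hermitian part of a dominated matrix is killed by the matrix -/
theorem ker_DD (N : Matrix Y Y ℤ) (hN : DD N) (v : Y → ℤ)
    (h : ∀ y, ∑ z, (N y z + N z y) * v z = 0) (y : Y) : ∑ z, N y z * v z = 0 := by
  have h0 : qf N (fun y => (v y : ℝ)) = 0 := by
    have h1 : qf (hp N) (fun y => (v y : ℝ)) = 0 := by
      unfold qf
      refine Finset.sum_eq_zero fun y _ => ?_
      have h2 : ((∑ z, (N y z + N z y) * v z : ℤ) : ℝ) = 0 := by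
        rw [h y]
        simp
      push_cast at h2
      have h3 : ∀ z, ((hp N y z : ℤ) : ℝ) * (v y : ℝ) * (v z : ℝ)
          = (v y : ℝ) * (((N y z : ℝ) + (N z y : ℝ)) * (v z : ℝ)) := by
        intro z
        rw [hp_apply]
        push_cast
        ring
      rw [Finset.sum_congr rfl fun z _ => h3 z, ← Finset.mul_sum, h2, mul_zero]
    rw [qf_hp] at h1
    linarith
  obtain ⟨h1, h2, h3⟩ := energy_zero N hN v h0
  have h4 : ∀ z, N y z * v z = (if z = y then 2 * N y y * v y else 0) - |N y z| * v y := by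
    intro z
    split_ifs with h
    · subst h
      rw [abs_of_nonneg (hN.diag_nonneg z)]
      ring
    · rcases lt_trichotomy (N y z) 0 with h5 | h5 | h5
      · rw [h2 y z h h5, abs_of_neg h5]
        ring
      · rw [h5]
        simp
      · rw [h3 y z h h5, abs_of_pos h5]
        ring
  rw [Finset.sum_congr rfl fun z _ => h4 z, Finset.sum_sub_distrib, Finset.sum_ite_eq' univ y,
    if_pos (mem_univ y), ← Finset.sum_mul]
  by_cases hy : dfc N y = 0
  · have h5 := hN.row y
    have h6 := hN.col y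
    unfold dfc at hy
    have h7 : ∑ z, |N y z| = 2 * N y y := by omega
    rw [h7]
    ring
  · rw [h1 y hy]
    ring

end mat

variable {G : Type} [Group G] {ι : Type} [Fintype ι] [DecidableEq ι]

theorem nm_add_le (a b : MonoidAlgebra ℤ G) : nm (a + b) ≤ nm a + nm b := by
  classical
  have h1 : (a + b).coeff.support ⊆ a.coeff.support ∪ b.coeff.support := by
    rw [MonoidAlgebra.coeff_add]
    exact Finsupp.support_add
  rw [nm_eq_sum _ _ h1, nm_eq_sum a _ Finset.subset_union_left,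
    nm_eq_sum b (a.coeff.support ∪ b.coeff.support) Finset.subset_union_right,
    ← Finset.sum_add_distrib]
  refine Finset.sum_le_sum fun g _ => ?_
  rw [MonoidAlgebra.coeff_add, Finsupp.add_apply]
  exact abs_add_le _ _

theorem sub_row (M : Matrix ι ι (MonoidAlgebra ℤ G)) (c : ℕ) (h0 : ∀ i, 0 ≤ (M i i).coeff 1)
    (hc : ∀ i, (M i i).coeff 1 ≤ c) (h : ∀ i, ∑ j, nm (M i j) ≤ 2 * (M i i).coeff 1) (i : ι) :
    ∑ j, nm ((c • (1 : Matrix ι ι (MonoidAlgebra ℤ G)) - M) i j) ≤ c := by
  rw [← Finset.add_sum_erase _ _ (mem_univ i)]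
  have h1 : nm ((c • (1 : Matrix ι ι (MonoidAlgebra ℤ G)) - M) i i)
      ≤ nm (M i i) + c - 2 * (M i i).coeff 1 := by
    rw [Matrix.sub_apply, Matrix.smul_apply, Matrix.one_apply_eq]
    exact nm_sub _ _ (h0 i) (hc i)
  have h3 : ∑ j ∈ univ.erase i, nm ((c • (1 : Matrix ι ι (MonoidAlgebra ℤ G)) - M) i j)
      = ∑ j ∈ univ.erase i, nm (M i j) := by
    refine Finset.sum_congr rfl fun j hj => ?_
    have h4 : i ≠ j := fun h => (Finset.ne_of_mem_erase hj) h.symm
    rw [Matrix.sub_apply, Matrix.smul_apply, Matrix.one_apply_ne h4, smul_zero, zero_sub, nm_neg]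
  rw [h3]
  have h5 := h i
  rw [← Finset.add_sum_erase _ _ (mem_univ i)] at h5
  omega

theorem sub_col (M : Matrix ι ι (MonoidAlgebra ℤ G)) (c : ℕ) (h0 : ∀ i, 0 ≤ (M i i).coeff 1)
    (hc : ∀ i, (M i i).coeff 1 ≤ c) (h : ∀ j, ∑ i, nm (M i j) ≤ 2 * (M j j).coeff 1) (j : ι) :
    ∑ i, nm ((c • (1 : Matrix ι ι (MonoidAlgebra ℤ G)) - M) i j) ≤ c := by
  rw [← Finset.add_sum_erase _ _ (mem_univ j)]
  have h1 : nm ((c • (1 : Matrix ι ι (MonoidAlgebra ℤ G)) - M) j j)
      ≤ nm (M j j) + c - 2 * (M j j).coeff 1 := by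
    rw [Matrix.sub_apply, Matrix.smul_apply, Matrix.one_apply_eq]
    exact nm_sub _ _ (h0 j) (hc j)
  have h3 : ∑ i ∈ univ.erase j, nm ((c • (1 : Matrix ι ι (MonoidAlgebra ℤ G)) - M) i j)
      = ∑ i ∈ univ.erase j, nm (M i j) := by
    refine Finset.sum_congr rfl fun i hi => ?_
    have h4 : i ≠ j := Finset.ne_of_mem_erase hi
    rw [Matrix.sub_apply, Matrix.smul_apply, Matrix.one_apply_ne h4, smul_zero, zero_sub, nm_neg]
  rw [h3]
  have h5 := h j
  rw [← Finset.add_sum_erase _ _ (mem_univ j)] at h5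
  omega

/-- rows and columns are dominated -/
def RowCol (A : Matrix ι ι (MonoidAlgebra ℤ G)) : Prop :=
  (∀ i, ∑ j, nm (A i j) ≤ 2 * (A i i).coeff 1) ∧ ∀ j, ∑ i, nm (A i j) ≤ 2 * (A j j).coeff 1

theorem RowCol.nonneg {A : Matrix ι ι (MonoidAlgebra ℤ G)} (h : RowCol A) (i : ι) :
    0 ≤ (A i i).coeff 1 := by
  have h1 := h.1 i
  have h2 : 0 ≤ ∑ j, nm (A i j) := Finset.sum_nonneg fun j _ => nm_nonneg _
  omega

theorem RowCol.DD_reg {A : Matrix ι ι (MonoidAlgebra ℤ G)} (h : RowCol A) (X : Type) [Fintype X]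
    [DecidableEq X] [MulAction G X] : DD (reg X A) := by
  set c : ℕ := ∑ i, ((A i i).coeff 1).natAbs with hc
  have hc' : ∀ i, (A i i).coeff 1 ≤ (c : ℤ) := by
    intro i
    have h1 : ((A i i).coeff 1).natAbs ≤ c :=
      Finset.single_le_sum (f := fun i => ((A i i).coeff 1).natAbs)
        (fun i _ => Nat.zero_le _) (mem_univ i)
    omega
  have h1 : reg X A = cB (reg X (c • (1 : Matrix ι ι (MonoidAlgebra ℤ G)) - A)) c := by
    rw [← reg_cB]
    congr 1
    abel
  rw [h1]
  exact cB_DD _ _ (reg_row X _ _ (sub_row A c h.nonneg hc' h.1))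
    (reg_col X _ _ (sub_col A c h.nonneg hc' h.2))

theorem RowCol.dom2 {A : Matrix ι ι (MonoidAlgebra ℤ G)} (h : RowCol A) : Dom2 A := by
  intro i
  have h1 : ∀ j, nm ((A + adj A) i j) ≤ nm (A i j) + nm (A j i) := by
    intro j
    rw [Matrix.add_apply, TH6.LF.adj_apply]
    refine (nm_add_le _ _).trans ?_
    rw [nm_bar]
  have h2 : ((A + adj A) i i).coeff 1 = 2 * (A i i).coeff 1 := by
    rw [Matrix.add_apply, TH6.LF.adj_apply, MonoidAlgebra.coeff_add, Finsupp.add_apply,
      TH6.LF.coeff_bar, inv_one]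
    ring
  rw [h2]
  have h3 := Finset.sum_le_sum fun j (_ : j ∈ univ) => h1 j
  rw [Finset.sum_add_distrib] at h3
  have h4 := h.1 i
  have h5 := h.2 i
  omega

/-- (a) dominated rows and columns -/
theorem RowCol.kerCond {A : Matrix ι ι (MonoidAlgebra ℤ G)} (h : RowCol A) : KerCond A := by
  classical
  intro X _ _ v hv p
  refine ker_DD (reg X A) (h.DD_reg X) v (fun p => ?_) p
  have h1 := hv p
  have h2 : ∀ q, reg X (A + adj A) p q = reg X A p q + reg X A q p := by
    intro q
    rw [reg_add, reg_adj]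
    rfl
  simp only [h2] at h1
  exact h1

/-- (c) the matrix is a multiple of its hermitian part -/
theorem kerCond_of_mul (A U : Matrix ι ι (MonoidAlgebra ℤ G)) (k : ℕ) (hk : k ≠ 0)
    (h : k • A = U * (A + adj A)) : KerCond A := by
  classical
  intro X _ _ v hv p
  have h1 : ∀ p, (reg X (k • A) *ᵥ v) p = 0 := by
    intro p
    rw [h, reg_mul, ← Matrix.mulVec_mulVec]
    have h2 : reg X (A + adj A) *ᵥ v = 0 := funext fun p => hv p
    rw [h2, Matrix.mulVec_zero]
    rfl
  have h2 := h1 p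
  rw [reg_nsmul, Matrix.smul_mulVec] at h2
  have h3 : (k : ℤ) * ∑ q, reg X A p q * v q = 0 := by
    have h4 : (k • (reg X A *ᵥ v)) p = (k : ℤ) * ∑ q, reg X A p q * v q := by
      rw [Pi.smul_apply, nsmul_eq_mul]
      rfl
    rw [← h4]
    exact h2
  rcases mul_eq_zero.1 h3 with h4 | h4
  · exact absurd (by exact_mod_cast h4) hk
  · exact h4

/-- (b) one row: the support of `a` is contained in the subgroup generated by the support of
`a + a^*` -/
theorem kerCond_scalar (a : MonoidAlgebra ℤ G) (hd : nm (a + bar a) ≤ 2 * (a + bar a).coeff 1)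
    (hs : ∀ g ∈ a.coeff.support, g ∈ Subgroup.closure ((a + bar a).coeff.support : Set G)) :
    KerCond (fun _ _ => a : Matrix Unit Unit (MonoidAlgebra ℤ G)) := by
  classical
  intro X _ _ v hv p
  set A : Matrix Unit Unit (MonoidAlgebra ℤ G) := fun _ _ => a with hA
  set b := a + bar a with hb
  let w : X → ℤ := fun x => v (x, ())
  -- the action
  have act : ∀ (m : MonoidAlgebra ℤ G) (x : X),
      ∑ y, pr X m x y * w y = ∑ g ∈ m.coeff.support, m.coeff g * w (g⁻¹ • x) := by
    intro m x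
    simp only [pr_apply, Finset.sum_mul]
    rw [Finset.sum_comm]
    refine Finset.sum_congr rfl fun g _ => ?_
    rw [Finset.sum_eq_single (g⁻¹ • x)]
    · simp
    · intro y _ hy
      rw [if_neg, zero_mul]
      rintro rfl
      exact hy (by simp)
    · simp
  have act' : ∀ (m : MonoidAlgebra ℤ G) (x : X),
      ∑ y, pr X (bar m) x y * w y = ∑ g ∈ m.coeff.support, m.coeff g * w (g • x) := by
    intro m x
    simp only [pr_bar]
    simp only [pr_apply, Finset.sum_mul]
    rw [Finset.sum_comm]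
    refine Finset.sum_congr rfl fun g _ => ?_
    rw [Finset.sum_eq_single (g • x)]
    · simp
    · intro y _ hy
      rw [if_neg, zero_mul]
      exact fun h => hy h.symm
    · simp
  have hregA : ∀ q : X × Unit, reg X A p q = pr X a p.1 q.1 := fun q => by rw [reg_eq]
  have hv' : ∀ x, ∑ g ∈ b.coeff.support, b.coeff g * w (g⁻¹ • x) = 0 := by
    intro x
    rw [← act]
    have h1 := hv (x, ())
    rw [Fintype.sum_prod_type] at h1
    simp only [Finset.univ_unique, Finset.sum_singleton] at h1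
    rw [← h1]
    refine Finset.sum_congr rfl fun y _ => ?_
    rw [reg_eq]
    rfl
  -- the energy
  have hb1 : 0 ≤ b.coeff 1 := by
    have := nm_nonneg b
    omega
  have hz : ∀ g ∈ b.coeff.support, g ≠ 1 → ∀ x,
      |b.coeff g| * (w x ^ 2 + w (g⁻¹ • x) ^ 2) + 2 * b.coeff g * w x * w (g⁻¹ • x) = 0 := by
    have hnn : ∀ g x, 0 ≤ |b.coeff g| * (w x ^ 2 + w (g⁻¹ • x) ^ 2)
        + 2 * b.coeff g * w x * w (g⁻¹ • x) := by
      intro g x
      rcases abs_cases (b.coeff g) with ⟨h1, h2⟩ | ⟨h1, h2⟩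
      · rw [h1]
        nlinarith [mul_nonneg h2 (sq_nonneg (w x + w (g⁻¹ • x)))]
      · rw [h1]
        nlinarith [mul_nonneg (neg_nonneg.2 h2.le) (sq_nonneg (w x - w (g⁻¹ • x)))]
    have hsum : ∑ g ∈ b.coeff.support.erase 1, ∑ x, (|b.coeff g| * (w x ^ 2 + w (g⁻¹ • x) ^ 2)
        + 2 * b.coeff g * w x * w (g⁻¹ • x)) ≤ 0 := by
      have h1 : ∀ g : G, ∑ x, w (g⁻¹ • x) ^ 2 = ∑ x, w x ^ 2 := fun g =>
        Equiv.sum_comp (MulAction.toPerm g⁻¹ : Equiv.Perm X) fun x => w x ^ 2
      have h2 : ∀ g, ∑ x, (|b.coeff g| * (w x ^ 2 + w (g⁻¹ • x) ^ 2)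
          + 2 * b.coeff g * w x * w (g⁻¹ • x))
          = 2 * |b.coeff g| * ∑ x, w x ^ 2 + 2 * ∑ x, w x * (b.coeff g * w (g⁻¹ • x)) := by
        intro g
        rw [Finset.sum_add_distrib, ← Finset.mul_sum, Finset.sum_add_distrib, h1, Finset.mul_sum
          (s := univ) (f := fun x => w x * (b.coeff g * w (g⁻¹ • x)))]
        congr 1
        · ring
        · refine Finset.sum_congr rfl fun x _ => ?_
          ring
      simp only [h2, Finset.sum_add_distrib, ← Finset.sum_mul, ← Finset.mul_sum]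
      have h3 : ∑ g ∈ b.coeff.support.erase 1, ∑ x, w x * (b.coeff g * w (g⁻¹ • x))
          = - (b.coeff 1 * ∑ x, w x ^ 2) := by
        have h4 : ∑ g ∈ insert 1 b.coeff.support, ∑ x, w x * (b.coeff g * w (g⁻¹ • x)) = 0 := by
          rw [Finset.sum_comm]
          refine Finset.sum_eq_zero fun x _ => ?_
          rw [← Finset.mul_sum]
          have h5 : ∑ g ∈ insert 1 b.coeff.support, b.coeff g * w (g⁻¹ • x)
              = ∑ g ∈ b.coeff.support, b.coeff g * w (g⁻¹ • x) := by
            refine (Finset.sum_subset (Finset.subset_insert _ _) fun g _ hg => ?_).symm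
            rw [Finsupp.notMem_support_iff.1 hg, zero_mul]
          rw [h5, hv', mul_zero]
        rw [← Finset.add_sum_erase _ _ (Finset.mem_insert_self 1 b.coeff.support),
          Finset.erase_insert_eq_erase] at h4
        have h6 : ∑ x, w x * (b.coeff 1 * w ((1 : G)⁻¹ • x)) = b.coeff 1 * ∑ x, w x ^ 2 := by
          rw [Finset.mul_sum]
          refine Finset.sum_congr rfl fun x _ => ?_
          rw [inv_one, one_smul]
          ring
        rw [h6] at h4
        omega
      have h4 : ∑ g ∈ b.coeff.support.erase 1, |b.coeff g| = nm b - b.coeff 1 := by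
        have h5 : nm b = ∑ g ∈ insert 1 b.coeff.support, |b.coeff g| :=
          nm_eq_sum b _ (Finset.subset_insert _ _)
        rw [← Finset.add_sum_erase _ _ (Finset.mem_insert_self 1 b.coeff.support),
          Finset.erase_insert_eq_erase, abs_of_nonneg hb1] at h5
        omega
      rw [h3, h4]
      have h5 : 0 ≤ ∑ x, w x ^ 2 := Finset.sum_nonneg fun x _ => sq_nonneg _
      nlinarith
    have hsum0 : ∑ g ∈ b.coeff.support.erase 1, ∑ x, (|b.coeff g| * (w x ^ 2 + w (g⁻¹ • x) ^ 2)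
        + 2 * b.coeff g * w x * w (g⁻¹ • x)) = 0 :=
      le_antisymm hsum (Finset.sum_nonneg fun g _ => Finset.sum_nonneg fun x _ => hnn g x)
    intro g hg hg1 x
    have h1 := (Finset.sum_eq_zero_iff_of_nonneg (fun g _ => Finset.sum_nonneg fun x _ =>
      hnn g x)).1 hsum0 g (Finset.mem_erase.2 ⟨hg1, hg⟩)
    exact (Finset.sum_eq_zero_iff_of_nonneg (fun x _ => hnn g x)).1 h1 x (mem_univ x)
  -- the signs
  have hsign : ∀ g ∈ Subgroup.closure (b.coeff.support : Set G),
      ∃ ε : ℤ, ε * ε = 1 ∧ ∀ x, w (g • x) = ε * w x := by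
    intro g hg
    induction hg using Subgroup.closure_induction with
    | mem g hg =>
      by_cases hg1 : g = 1
      · exact ⟨1, by norm_num, fun x => by rw [hg1, one_smul, one_mul]⟩
      · have hg' : g ∈ b.coeff.support := hg
        have hne : b.coeff g ≠ 0 := Finsupp.mem_support_iff.1 hg'
        rcases lt_or_gt_of_ne hne with h1 | h1
        · refine ⟨1, by norm_num, fun x => ?_⟩
          have h2 := hz g hg' hg1 (g • x)
          rw [inv_smul_smul, abs_of_neg h1] at h2
          have h3 : (-(b.coeff g)) * (w (g • x) - w x) ^ 2 = 0 := by linarith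
          rcases mul_eq_zero.1 h3 with h4 | h4
          · omega
          · have h5 := pow_eq_zero_iff (two_ne_zero) |>.1 h4
            linarith
        · refine ⟨-1, by norm_num, fun x => ?_⟩
          have h2 := hz g hg' hg1 (g • x)
          rw [inv_smul_smul, abs_of_pos h1] at h2
          have h3 : (b.coeff g) * (w (g • x) + w x) ^ 2 = 0 := by linarith
          rcases mul_eq_zero.1 h3 with h4 | h4
          · omega
          · have h5 := pow_eq_zero_iff (two_ne_zero) |>.1 h4
            linarith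
    | one => exact ⟨1, by norm_num, fun x => by rw [one_smul, one_mul]⟩
    | mul g h _ _ hg hh =>
      obtain ⟨ε, h1, h2⟩ := hg
      obtain ⟨δ, h3, h4⟩ := hh
      refine ⟨ε * δ, ?_, fun x => ?_⟩
      · calc ε * δ * (ε * δ) = (ε * ε) * (δ * δ) := by ring
          _ = 1 := by rw [h1, h3, mul_one]
      · rw [mul_smul, h2, h4, mul_assoc]
    | inv g _ hg =>
      obtain ⟨ε, h1, h2⟩ := hg
      refine ⟨ε, h1, fun x => ?_⟩
      have h3 := h2 (g⁻¹ • x)
      rw [smul_inv_smul] at h3
      rw [h3, ← mul_assoc, h1, one_mul]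
  choose! ε hε1 hε2 using fun g (hg : g ∈ a.coeff.support) => hsign g (hs g hg)
  set α : ℤ := ∑ g ∈ a.coeff.support, a.coeff g * ε g with hα
  have hinv : ∀ g ∈ a.coeff.support, ∀ x, w (g⁻¹ • x) = ε g * w x := by
    intro g hg x
    have h3 := hε2 g hg (g⁻¹ • x)
    rw [smul_inv_smul] at h3
    rw [h3, ← mul_assoc, hε1 g hg, one_mul]
  have e1 : ∀ x, ∑ y, pr X a x y * w y = α * w x := by
    intro x
    rw [act, hα, Finset.sum_mul]
    refine Finset.sum_congr rfl fun g hg => ?_
    rw [hinv g hg, mul_assoc]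
  have e2 : ∀ x, ∑ y, pr X (bar a) x y * w y = α * w x := by
    intro x
    rw [act', hα, Finset.sum_mul]
    refine Finset.sum_congr rfl fun g hg => ?_
    rw [hε2 g hg, mul_assoc]
  have e3 : ∀ x, 2 * (α * w x) = 0 := by
    intro x
    have h1 := hv' x
    rw [← act, hb, map_add] at h1
    have h2 : ∑ y, (pr X a + pr X (bar a)) x y * w y
        = ∑ y, pr X a x y * w y + ∑ y, pr X (bar a) x y * w y := by
      rw [← Finset.sum_add_distrib]
      refine Finset.sum_congr rfl fun y _ => ?_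
      rw [Matrix.add_apply]
      ring
    rw [h2, e1, e2] at h1
    linarith
  have e4 : ∑ q, reg X A p q * v q = ∑ y, pr X a p.1 y * w y := by
    rw [Fintype.sum_prod_type]
    simp only [Finset.univ_unique, Finset.sum_singleton, hregA]
    rfl
  rw [e4, e1]
  have := e3 p.1
  omega

end Pool.Agent.V8H82.HT
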