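import Pool.Agent.V8H82.HT.Green

set_option autoImplicit false
set_option linter.unusedSectionVars false

/-!
# The determinant of `A + s` and the torsion of the cokernel
-/

namespace Pool.Agent.V8H82.HT

open Finset Matrix Filter Topology Pool.Agent.V8H82.DM
open Pool.Agent.Q181.TG (tc Cok)

variable {Y : Type} [Fintype Y] [DecidableEq Y]

theorem HD.hasDerivAt_det {A : Matrix Y Y ℤ} (hA : HD A) (s : ℝ) (hs : 0 < s) :
    HasDerivAt (fun t => (Ms A t).det) ((Ms A s).det * (Gs A s).trace) s := by
  set p := (det (1 + (Polynomial.X : Polynomial ℝ) • (Gs A s).map Polynomial.C)).divX.divX with hp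
  have h1 : ∀ t, (Ms A t).det = (Ms A s).det *
      (1 + (Gs A s).trace * (t - s) + p.eval (t - s) * (t - s) ^ 2) := by
    intro t
    have h2 : Ms A t = Ms A s * (1 + (t - s) • Gs A s) := by
      have h3 : t = s + (t - s) := by ring
      rw [mul_add, mul_one, Matrix.mul_smul, hA.Ms_Gs s hs, ← Ms_add, ← h3]
    rw [h2, det_mul, det_one_add_smul]
  have h2 : HasDerivAt (fun t : ℝ => (Ms A s).det *
      (1 + (Gs A s).trace * (t - s) + p.eval (t - s) * (t - s) ^ 2))
      ((Ms A s).det * (Gs A s).trace) s := by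
    have h3 : HasDerivAt (fun t : ℝ => t - s) 1 s := (hasDerivAt_id s).sub_const s
    have h4 : HasDerivAt (fun t : ℝ => p.eval (t - s)) (p.derivative.eval (s - s)) s :=
      (p.hasDerivAt (s - s)).comp_sub_const s s
    have h5 := (((h3.const_mul (Gs A s).trace).const_add 1).add (h4.mul (h3.pow 2))).const_mul
      (Ms A s).det
    refine h5.congr_deriv ?_
    simp
  have h3 : (fun t => (Ms A t).det) = fun t : ℝ => (Ms A s).det *
      (1 + (Gs A s).trace * (t - s) + p.eval (t - s) * (t - s) ^ 2) := funext h1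
  rw [h3]
  exact h2

theorem HD.hasDerivAt_log {A : Matrix Y Y ℤ} (hA : HD A) (s : ℝ) (hs : 0 < s) :
    HasDerivAt (fun t => Real.log (Ms A t).det) ((Gs A s).trace) s := by
  have h1 := (hA.hasDerivAt_det s hs).log (hA.det_ne s hs)
  have h2 : (Ms A s).det * (Gs A s).trace / (Ms A s).det = (Gs A s).trace := by
    field_simp [hA.det_ne s hs]
  rwa [h2] at h1

/-- if all vertices are good then the matrix is nonsingular -/
theorem HD.det_good {A : Matrix Y Y ℤ} (hA : HD A) (hg : ∀ y, good (hp A) y) : A.det ≠ 0 := by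
  intro h
  have h0 : (Ms A 0).det = 0 := by rw [Ms_zero_det, h, Int.cast_zero]
  obtain ⟨v, hv, hv0⟩ := Matrix.exists_mulVec_eq_zero_iff.2 h0
  have h1 := dot_Ms A 0 v
  rw [hv0, dotProduct_zero, zero_mul, add_zero] at h1
  have h2 : ∀ y, ∀ s : ℝ, 0 < s → s ≤ 1 / 2 →
      Real.sqrt s / 12 * v y ^ 2 ≤ s * ∑ z, v z ^ 2 := by
    intro y s hs hs1
    have h3 : Real.sqrt s / 12 * v y ^ 2 ≤ qf A v + s * ∑ z, v z ^ 2 := by
      rcases hg y with h | ⟨z, ε, h, h'⟩
      · exact hA.path v y y (-1) h (Or.inr (by push_cast; nlinarith [sq_nonneg (v y)]))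
          s hs hs1
      · exact hA.path v y z ε h (Or.inl h') s hs hs1
    rwa [← h1, zero_add] at h3
  obtain ⟨y, hy⟩ : ∃ y, v y ≠ 0 := by
    by_contra h3
    push Not at h3
    exact hv (funext h3)
  set m := ∑ z, v z ^ 2 with hm
  have hm0 : 0 ≤ m := Finset.sum_nonneg fun z _ => sq_nonneg _
  have hvy : 0 < v y ^ 2 := by positivity
  set r : ℝ := min (1 / 2) (v y ^ 2 / (16 * (m + 1))) with hr
  have hr0 : 0 < r := by
    rw [hr]
    exact lt_min (by norm_num) (by positivity)
  have hr1 : r ≤ 1 / 2 := min_le_left _ _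
  have hr2 : r * (16 * (m + 1)) ≤ v y ^ 2 := by
    have h3 : r ≤ v y ^ 2 / (16 * (m + 1)) := min_le_right _ _
    rwa [le_div_iff₀ (by positivity)] at h3
  have h3 := h2 y (r ^ 2) (by positivity) (by nlinarith)
  rw [Real.sqrt_sq hr0.le] at h3
  have h4 : r * (v y ^ 2 / 12) ≤ r * (r * m) := by nlinarith
  have h5 : v y ^ 2 / 12 ≤ r * m := le_of_mul_le_mul_left h4 hr0
  nlinarith

/-- the good case -/
theorem HD.log_good {A : Matrix Y Y ℤ} (hA : HD A) (hg : ∀ y, good (hp A) y) (s : ℝ) (hs : 0 < s)
    (hs1 : s ≤ 1 / 2) : Real.log (A.det : ℝ) ≤ Real.log (Ms A s).det ∧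
      Real.log (Ms A s).det ≤ Real.log (A.det : ℝ) + 24 * Fintype.card Y * Real.sqrt s := by
  have hd := hA.det_good hg
  have hd' : (Ms A 0).det ≠ 0 := by
    rw [Ms_zero_det]
    exact_mod_cast hd
  have hc : ContinuousOn (fun t => Real.log (Ms A t).det) (Set.Icc 0 s) := by
    intro t ht
    refine ((cont_det A).continuousAt.log ?_).continuousWithinAt
    rcases ht.1.eq_or_lt with h | h
    · rw [← h]
      exact hd'
    · exact hA.det_ne t h
  have htr : ∀ t, 0 < t → t ≤ 1 / 2 → 0 ≤ (Gs A t).trace ∧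
      (Gs A t).trace ≤ Fintype.card Y * (12 / Real.sqrt t) := by
    intro t ht ht1
    constructor
    · refine Finset.sum_nonneg fun y _ => ?_
      exact (hA.green_good y (hg y) t ht ht1).1
    · have h1 : (Gs A t).trace ≤ ∑ y : Y, 12 / Real.sqrt t :=
        Finset.sum_le_sum fun y _ => (hA.green_good y (hg y) t ht ht1).2
      rw [Finset.sum_const, nsmul_eq_mul, Finset.card_univ] at h1
      exact h1
  constructor
  · have hmono : MonotoneOn (fun t => Real.log (Ms A t).det) (Set.Icc 0 s) := by
      refine monotoneOn_of_deriv_nonneg (convex_Icc 0 s) hc ?_ ?_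
      · intro t ht
        rw [interior_Icc] at ht
        exact (hA.hasDerivAt_log t ht.1).differentiableAt.differentiableWithinAt
      · intro t ht
        rw [interior_Icc] at ht
        rw [(hA.hasDerivAt_log t ht.1).deriv]
        exact (htr t ht.1 (ht.2.le.trans hs1)).1
    have h1 := hmono (Set.left_mem_Icc.2 hs.le) (Set.right_mem_Icc.2 hs.le) hs.le
    simp only [Ms_zero_det] at h1
    exact h1
  · have hanti : AntitoneOn (fun t => Real.log (Ms A t).det -
        24 * Fintype.card Y * Real.sqrt t) (Set.Icc 0 s) := by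
      have hder : ∀ t, 0 < t → HasDerivAt (fun t => Real.log (Ms A t).det -
          24 * Fintype.card Y * Real.sqrt t)
          ((Gs A t).trace - 24 * Fintype.card Y * (1 / (2 * Real.sqrt t))) t := by
        intro t ht
        exact (hA.hasDerivAt_log t ht).sub ((Real.hasDerivAt_sqrt ht.ne').const_mul _)
      refine antitoneOn_of_deriv_nonpos (convex_Icc 0 s) ?_ ?_ ?_
      · exact hc.sub (by fun_prop)
      · intro t ht
        rw [interior_Icc] at ht
        exact (hder t ht.1).differentiableAt.differentiableWithinAt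
      · intro t ht
        rw [interior_Icc] at ht
        rw [(hder t ht.1).deriv]
        have h1 := (htr t ht.1 (ht.2.le.trans hs1)).2
        have h2 : 24 * (Fintype.card Y : ℝ) * (1 / (2 * Real.sqrt t)) =
          Fintype.card Y * (12 / Real.sqrt t) := by
          have : 0 < Real.sqrt t := Real.sqrt_pos.2 ht.1
          field_simp
          ring
        rw [h2]
        linarith
    have h1 := hanti (Set.left_mem_Icc.2 hs.le) (Set.right_mem_Icc.2 hs.le) hs.le
    simp only [Ms_zero_det, Real.sqrt_zero, mul_zero, sub_zero] at h1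
    linarith

section add

variable (A : Matrix Y Y ℤ) (y : Y)

theorem hp_Nd : hp (Nd A y) = Nd (Nd (hp A) y) y := by
  ext z w
  rw [hp_apply, Nd_apply, Nd_apply, Nd_apply, Nd_apply, hp_apply]
  by_cases h : z = y
  · by_cases h' : w = y
    · simp [h, h']
      ring
    · simp [h, h']
  · by_cases h' : w = y
    · simp [h, h']
    · simp [h, h']

theorem uv_Nd (N : Matrix Y Y ℤ) (z w : Y) : uv (Nd N y) z w = uv N z w := by
  have h1 : Reach (Nd N y) z w 1 = Reach N z w 1 := propext (Nd_Reach y z w 1)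
  have h2 : Reach (Nd N y) z w (-1) = Reach N z w (-1) := propext (Nd_Reach y z w (-1))
  unfold uv
  rw [h1, h2]

theorem cls_Nd2 (N : Matrix Y Y ℤ) (z : Y) : cls (Nd (Nd N y) y) z = cls N z := by
  rw [Nd_cls, Nd_cls]

variable {A}

theorem good_Nd2 {N : Matrix Y Y ℤ} (hN : DD N) (z : Y) :
    good (Nd (Nd N y) y) z ↔ good (Nd N y) z := by
  rw [Nd_good y (Nd_DD y hN), Nd_cls, Nd_good y hN]
  tauto

theorem Pf_Nd2 {N : Matrix Y Y ℤ} (hN : DD N) (z : Y) :
    Pf (Nd (Nd N y) y) z = Pf (Nd N y) z := by
  classical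
  unfold Pf
  rw [Nd_cls y z]
  by_cases h : good (Nd N y) z
  · rw [if_pos h, if_pos ((good_Nd2 y hN z).2 h)]
  · rw [if_neg h, if_neg fun h' => h ((good_Nd2 y hN z).1 h')]

theorem HD.unit (hA : HD A) : HD (Nd A y) := by
  constructor
  · rw [hp_Nd]
    exact Nd_DD y (Nd_DD y hA.dd)
  · intro z hz z'
    rw [hp_Nd] at hz ⊢
    rw [good_Nd2 y hA.dd, Nd_good y hA.dd] at hz
    push Not at hz
    obtain ⟨hz1, hz2⟩ := hz
    have h1 : uv (hp A) z y = 0 := by
      refine uv_eq_zero fun ε hε => hz2 ?_
      simp only [cls, mem_filter, mem_univ, true_and]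
      exact ⟨ε, hε.symm'⟩
    have h2 := hA.ker z hz1 z'
    have h3 : ∀ w, Nd A y z' w * uv (Nd (Nd (hp A) y) y) z w
        = A z' w * uv (hp A) z w + if w = y then (if z' = y then uv (hp A) z y else 0) else 0 := by
      intro w
      rw [uv_Nd, uv_Nd, Nd_apply]
      by_cases h : w = y
      · by_cases h' : z' = y
        · simp [h, h']
          ring
        · simp [h, h']
      · simp [h]
    rw [Finset.sum_congr rfl fun w _ => h3 w, Finset.sum_add_distrib, h2,
      Finset.sum_ite_eq' univ y, h1]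
    simp

theorem HD.Nd_tc (hA : HD A) (hb : ¬ good (hp A) y) :
    tc (Cok (Nd A y)) = tc (Cok A) :=
  tc_add A y (uv (hp A) y) (uv (hp A) y) (hA.ker y hb) (hA.ker' hb) uv_self uv_self

theorem HD.Nd_det (hA : HD A) (s : ℝ) (hs : 0 < s) :
    (Ms (Nd A y) s).det = (Ms A s).det * (1 + Gs A s y y) := by
  have h1 : Ms (Nd A y) s = Ms A s + replicateCol Unit (Pi.single y (1 : ℝ)) *
      replicateRow Unit (Pi.single y (1 : ℝ)) := by
    ext z w
    simp only [Ms, Matrix.add_apply, Matrix.map_apply, Nd_apply, Matrix.mul_apply,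
      replicateCol_apply, replicateRow_apply, Finset.univ_unique, Finset.sum_singleton,
      Pi.single_apply]
    by_cases h : z = y <;> by_cases h' : w = y <;> simp [h, h'] <;> ring
  rw [h1, det_add_replicateCol_mul_replicateRow (isUnit_iff_ne_zero.2 (hA.det_ne s hs))]
  congr 1
  rw [det_unique]
  simp only [Matrix.add_apply, Matrix.one_apply_eq]
  congr 1
  have h2 : (replicateRow Unit (Pi.single y (1 : ℝ)) * (Ms A s)⁻¹ *
      replicateCol Unit (Pi.single y (1 : ℝ))) default default = Gs A s y y := by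
    simp [Matrix.mul_apply, Pi.single_apply, Gs]
  exact h2

theorem HD.Nd_bad (hA : HD A) (hb : ¬ good (hp A) y) :
    Nat.card {z // ¬ good (hp (Nd A y)) z} + (cls (hp A) y).card
      = Nat.card {z // ¬ good (hp A) z} := by
  rw [← Pool.Agent.V8H82.DM.Nd_bad y hA.dd hb, hp_Nd]
  congr 1
  refine Nat.card_congr (Equiv.subtypeEquivRight fun z => ?_)
  rw [good_Nd2 y hA.dd]

end add

/-- the error term -/
noncomputable def er (A : Matrix Y Y ℤ) (s : ℝ) : ℝ :=
  Real.log (Ms A s).det - Real.log s * ∑ y, Pf (hp A) y - ∑ y, Real.negMulLog (Pf (hp A) y)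
    - Real.log (tc (Cok A))

theorem er_bounds (n : ℕ) : ∀ (A : Matrix Y Y ℤ), HD A → Nat.card {z // ¬ good (hp A) z} = n →
    ∀ (s : ℝ), 0 < s → s ≤ 1 / 2 → - (13 * (n : ℝ) * Real.sqrt s) ≤ er A s ∧
      er A s ≤ 24 * Fintype.card Y * Real.sqrt s := by
  induction n using Nat.strong_induction_on with
  | _ n ih =>
    intro A hA hn s hs hs1
    have hsq : 0 < Real.sqrt s := Real.sqrt_pos.2 hs
    by_cases hg : ∀ y, good (hp A) y
    · have h1 := hA.log_good hg s hs hs1
      have h2 : ∀ y, Pf (hp A) y = 0 := by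
        intro y
        unfold Pf
        rw [if_pos (hg y)]
      have h3 : er A s = Real.log (Ms A s).det - Real.log (A.det : ℝ) := by
        unfold er
        rw [tc_det A (hA.det_good hg)]
        simp only [h2, Finset.sum_const_zero, mul_zero, Real.negMulLog_zero, sub_zero]
        congr 1
        rw [Nat.cast_natAbs, Int.cast_abs, Real.log_abs]
      rw [h3]
      constructor
      · have : 0 ≤ 13 * (n : ℝ) * Real.sqrt s := by positivity
        linarith
      · linarith
    · push Not at hg
      obtain ⟨y, hb⟩ := hg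
      have h1 := hA.Nd_bad y hb
      have h2 := card_cls_pos (hp A) y
      have h3 := ih (Nat.card {z // ¬ good (hp (Nd A y)) z}) (by omega) (Nd A y) (hA.unit y) rfl
        s hs hs1
      set m : ℝ := ((cls (hp A) y).card : ℝ) with hm
      have hm0 : 0 < m := by
        rw [hm]
        exact_mod_cast h2
      have hm1 : 1 ≤ m := by
        rw [hm]
        exact_mod_cast h2
      have hG := hA.green_bad y hb s hs hs1
      have hG0 : 0 < Gs A s y y := lt_of_lt_of_le (by positivity) hG.1
      have hP : ∑ z, Pf (hp A) z = ∑ z, Pf (hp (Nd A y)) z + 1 := by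
        rw [sum_Pf y hA.dd hb, hp_Nd]
        simp only [Pf_Nd2 y hA.dd]
      have hE : ∑ z, Real.negMulLog (Pf (hp A) z)
          = ∑ z, Real.negMulLog (Pf (hp (Nd A y)) z) + Real.log m := by
        rw [sum_eta y hA.dd hb, hp_Nd]
        simp only [Pf_Nd2 y hA.dd, hm]
      have h4 : er A s = er (Nd A y) s - (Real.log (1 + Gs A s y y) + Real.log s + Real.log m) := by
        unfold er
        rw [hP, hE, hA.Nd_tc y hb, hA.Nd_det y s hs,
          Real.log_mul (hA.det_ne s hs) (by linarith)]
        ring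
      have h5 : Real.log (1 + Gs A s y y) + Real.log s + Real.log m =
          Real.log (m * s * (1 + Gs A s y y)) := by
        rw [Real.log_mul (by positivity) (by linarith), Real.log_mul hm0.ne' hs.ne']
        ring
      have h6 : 1 ≤ m * s * (1 + Gs A s y y) := by
        have h7 : m * s * (1 / m / s) = 1 := by field_simp
        have h8 := mul_le_mul_of_nonneg_left hG.1 (by positivity : 0 ≤ m * s)
        rw [h7] at h8
        have : 0 < m * s := by positivity
        linarith
      have h7 : m * s * (1 + Gs A s y y) ≤ 1 + 13 * m * Real.sqrt s := by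
        have h7 : m * s * (1 / m / s + 12 / Real.sqrt s) = 1 + 12 * m * Real.sqrt s := by
          have : s = Real.sqrt s * Real.sqrt s := (Real.mul_self_sqrt hs.le).symm
          have h9 : m * s * (12 / Real.sqrt s) = 12 * m * Real.sqrt s := by
            rw [this, Real.sqrt_mul_self hsq.le]
            field_simp
          rw [mul_add, h9]
          congr 1
          field_simp
        have h8 := mul_le_mul_of_nonneg_left hG.2 (by positivity : 0 ≤ m * s)
        rw [h7] at h8
        have h9 : s ≤ Real.sqrt s := by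
          have h10 : Real.sqrt s ≤ 1 := Real.sqrt_le_one.mpr (by linarith)
          have : s = Real.sqrt s * Real.sqrt s := (Real.mul_self_sqrt hs.le).symm
          nlinarith
        have h10 : m * s ≤ m * Real.sqrt s := mul_le_mul_of_nonneg_left h9 hm0.le
        linarith
      have h8 : 0 ≤ Real.log (m * s * (1 + Gs A s y y)) := Real.log_nonneg h6
      have h9 : Real.log (m * s * (1 + Gs A s y y)) ≤ 13 * m * Real.sqrt s := by
        have := Real.log_le_sub_one_of_pos (by linarith : 0 < m * s * (1 + Gs A s y y))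
        linarith
      rw [h4, h5]
      have h10 : ((Nat.card {z // ¬ good (hp (Nd A y)) z} : ℕ) : ℝ) + m = n := by
        rw [hm, ← hn, ← h1]
        push_cast
        ring
      constructor
      · have h11 : 13 * (n : ℝ) * Real.sqrt s =
          13 * ((Nat.card {z // ¬ good (hp (Nd A y)) z} : ℕ) : ℝ) * Real.sqrt s
            + 13 * m * Real.sqrt s := by
          rw [← h10]
          ring
        linarith [h3.1]
      · linarith [h3.2]

/-- **torsion and determinant** -/
theorem er_le (A : Matrix Y Y ℤ) (hA : HD A) (s : ℝ) (hs : 0 < s) (hs1 : s ≤ 1 / 2) :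
    |er A s| ≤ 24 * Fintype.card Y * Real.sqrt s := by
  have h1 := er_bounds _ A hA rfl s hs hs1
  have h2 : (Nat.card {z // ¬ good (hp A) z} : ℝ) ≤ Fintype.card Y := by
    have : Nat.card {z // ¬ good (hp A) z} ≤ Nat.card Y := Finite.card_subtype_le _
    rw [Nat.card_eq_fintype_card (α := Y)] at this
    exact_mod_cast this
  have hsq : 0 < Real.sqrt s := Real.sqrt_pos.2 hs
  rw [abs_le]
  refine ⟨?_, h1.2⟩
  have h3 : 13 * (Nat.card {z // ¬ good (hp A) z} : ℝ) * Real.sqrt s
      ≤ 24 * Fintype.card Y * Real.sqrt s := by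
    have : (0 : ℝ) ≤ Fintype.card Y := Nat.cast_nonneg _
    refine mul_le_mul_of_nonneg_right ?_ hsq.le
    linarith
  linarith [h1.1]

end Pool.Agent.V8H82.HT
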