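import Pool.Agent.V8H82.HT.Loc

set_option autoImplicit false
set_option linter.unusedSectionVars false

/-!
# The limit along Farber sequences
-/

namespace Pool.Agent.V8H82.HT

open Finset Matrix Filter Topology Pool.Agent.V8H82.DM
open Pool.Agent.Q181.TG (reg tc Cok Far)
open TH6.LF (adj bar)

variable {G : Type} [Group G] {ι : Type} [Fintype ι] [DecidableEq ι]
  (A : Matrix ι ι (MonoidAlgebra ℤ G))

/-- the power series of the logarithm of the Fuglede-Kadison determinant of `A + 1 / q`, that is, half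
of the logarithm of the determinant of `(q A + 1) (q A + 1)^* = ct - dt`, minus `log q` for each row -/
noncomputable def logdetA (q : ℕ) : ℝ :=
  ∑ i, (1 / 2 * (Real.log (ct A q) - ∑' k : ℕ, ((((dt A q) ^ (k + 1)) i i).coeff 1 : ℝ) /
    (((k : ℝ) + 1) * ((ct A q : ℕ) : ℝ) ^ (k + 1))) - Real.log q)

/-- truncated sums -/
noncomputable def gkf (q K : ℕ) (i : ι) : ℝ :=
  (1 / 2 * Real.log (ct A q) - Real.log q) + (- (1 / 2)) * ∑ k ∈ range K,
    (((k : ℝ) + 1) * ((ct A q : ℕ) : ℝ) ^ (k + 1))⁻¹ * bf (dt A q) (k + 1) i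

variable (X : ℕ → Type) [∀ n, Fintype (X n)] [∀ n, Nonempty (X n)] [∀ n, MulAction G (X n)]

theorem gk_far (hX : Far G X) (q K : ℕ) (i : ι) :
    Tendsto (fun n => av (gk A q K i) (X n)) atTop (𝓝 (gkf A q K i)) := by
  have h1 : ∀ n, av (gk A q K i) (X n) = (1 / 2 * Real.log (ct A q) - Real.log q)
      + (- (1 / 2)) * ∑ k ∈ range K, (((k : ℝ) + 1) * ((ct A q : ℕ) : ℝ) ^ (k + 1))⁻¹ *
        av (bk (dt A q) (k + 1) i) (X n) := by
    intro n
    unfold gk
    rw [av_add (fun X _ _ x => (1 / 2 * Real.log (ct A q) - Real.log q)) (fun X _ _ x =>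
      (- (1 / 2)) * ∑ k ∈ range K, (((k : ℝ) + 1) * ((ct A q : ℕ) : ℝ) ^ (k + 1))⁻¹ *
        bk (dt A q) (k + 1) i X x), av_const,
      av_smul (fun X _ _ x => ∑ k ∈ range K, (((k : ℝ) + 1) * ((ct A q : ℕ) : ℝ) ^ (k + 1))⁻¹ *
        bk (dt A q) (k + 1) i X x),
      av_sum (range K) (fun k => fun X _ _ x => (((k : ℝ) + 1) * ((ct A q : ℕ) : ℝ) ^ (k + 1))⁻¹ *
        bk (dt A q) (k + 1) i X x)]
    congr 2
    exact Finset.sum_congr rfl fun k _ => av_smul _ _ _
  simp only [h1]
  unfold gkf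
  exact ((tendsto_finsetSum _ fun k _ => (bk_far X hX (k + 1) i).const_mul _).const_mul
    (-(1 / 2))).const_add _

variable {A}

theorem bf_le2 (hX : Far G X) (h : Dom2 A) (hk : KerCond A) (q k : ℕ) (i : ι) :
    |bf (dt A q) k i| ≤ (((ct A q : ℕ) : ℝ) - 1) ^ k := by
  classical
  refine le_of_tendsto' (bk_far X hX k i).abs fun n => ?_
  have hHD := HD_reg h hk (X n)
  have hrow : ∀ y, ∑ z, |(mq (reg (X n) A) q * (mq (reg (X n) A) q)ᵀ) y z| ≤ ct A q := by
    rw [← reg_tt]
    exact reg_row (X n) _ _ (tt_row A q)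
  have hcol : ∀ y, ∑ z, |(mq (reg (X n) A) q * (mq (reg (X n) A) q)ᵀ) z y| ≤ ct A q := by
    rw [← reg_tt]
    exact reg_col (X n) _ _ (tt_col A q)
  have h2 := av_sub_le (bk (dt A q) k i) (fun _ _ _ _ => 0) ((((ct A q : ℕ) : ℝ) - 1) ^ k) (X n)
    (fun x => by
      rw [sub_zero]
      have h3 := Pool.Agent.V8H36.LS.diag_bound
        (cB (mq (reg (X n) A) q * (mq (reg (X n) A) q)ᵀ) (ct A q))
        (cB_symm hHD q (ct A q) hrow hcol) (ct A q) (ct_pos A q)
        (cB_low hHD q (ct A q) hrow hcol) (cB_up hHD q (ct A q) hrow hcol) k (x, i)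
      rw [← reg_dt] at h3
      exact h3)
  rw [av_const, sub_zero] at h2
  exact h2

/-- **the formula for the limit** -/
theorem far_formula (hX : Far G X) (h : Dom2 A) (hk : KerCond A) :
    ∃ (κ : ι → ℝ) (L : ℝ),
      (∀ i (s : ℝ), 0 < s → s ≤ 1 → |κ i - s * green0 (bb A) (cc A) s i| ≤ 8 * Real.sqrt s) ∧
      (∀ q : ℕ, 2 ≤ q → |L - (logdetA A q + Real.log q * ∑ i, κ i -
          ∑ i, Real.negMulLog (κ i))| ≤ Fintype.card ι * (24 * Real.sqrt (1 / q))) ∧
      Tendsto (fun n => Real.log (tc (Cok (reg (X n) A))) / Fintype.card (X n)) atTop (𝓝 L) := by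
  classical
  have h1 := h.row
  have h2 := h.col
  choose κ hκ using fun i => av_far X hX (pp (bb A) (cc A) i) (pp_loc h1 h2 i)
  have hκ0 : ∀ i, 0 ≤ κ i := fun i => by
    refine ge_of_tendsto' (hκ i) fun n => ?_
    unfold av
    exact div_nonneg (Finset.sum_nonneg fun x _ => pp_nonneg i (X n) x) (Nat.cast_nonneg _)
  have hκ1 : ∀ i, κ i ≤ 1 := fun i => by
    refine le_of_tendsto' (hκ i) fun n => ?_
    unfold av
    have hc : (0 : ℝ) < Fintype.card (X n) := by exact_mod_cast Fintype.card_pos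
    rw [div_le_one hc]
    have h3 : ∑ x : X n, pp (bb A) (cc A) i (X n) x ≤ ∑ x : X n, (1 : ℝ) :=
      Finset.sum_le_sum fun x _ => pp_le_one i (X n) x
    simpa using h3
  have hpt : ∀ i (s : ℝ) (K : ℕ), 0 < s → s ≤ 1 → |κ i - ptf (bb A) (cc A) s K i| ≤
        8 * Real.sqrt s + (((cc A : ℕ) : ℝ) / ((cc A : ℕ) + s)) ^ K := fun i s K hs hs1 =>
    lim_le (hκ i) (pt_far X hX s K i) fun n =>
      av_sub_le _ _ _ (X n) fun x => pp_pt h1 h2 s hs hs1 K i (X n) x
  have hF : ∃ L : ℝ, Tendsto (fun n => Real.log (tc (Cok (reg (X n) A))) /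
      Fintype.card (X n)) atTop (𝓝 L) := by
    refine conv_of_approx _ fun ε hε => ?_
    obtain ⟨q, K, hq, h3⟩ := testable h hk ε hε
    exact ⟨fun n => av (dn A q K) (X n), av_far X hX _ (dn_loc h q K), fun n =>
      log_div_sub _ _ _ (X n) (h3 (X n))⟩
  obtain ⟨L, hL⟩ := hF
  have hmain : ∀ (q K : ℕ), 2 ≤ q →
      |L - ∑ i, (gkf A q K i + (Real.log q * κ i + (-1) * eta (κ i)))| ≤
        Fintype.card ι * (24 * Real.sqrt (1 / q) + Er2 A q K) := by
    intro q K hq
    have h3 : Tendsto (fun n => av (dn A q K) (X n)) atTop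
        (𝓝 (∑ i, (gkf A q K i + (Real.log q * κ i + (-1) * eta (κ i))))) := by
      have h4 : ∀ n, av (dn A q K) (X n) = ∑ i, (av (gk A q K i) (X n) +
          (Real.log q * av (pp (bb A) (cc A) i) (X n) +
            (-1) * av (G := G) (fun X _ _ x => eta (pp (bb A) (cc A) i X x)) (X n))) := by
        intro n
        unfold dn
        rw [av_sum univ (fun i => fun X _ _ x =>
          (gk A q K i X x + (Real.log q * pp (bb A) (cc A) i X x
            + (-1) * eta (pp (bb A) (cc A) i X x))))]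
        refine Finset.sum_congr rfl fun i _ => ?_
        rw [av_add (gk A q K i) (fun X _ _ x =>
          (Real.log q * pp (bb A) (cc A) i X x + (-1) * eta (pp (bb A) (cc A) i X x))),
          av_add (fun X _ _ x => Real.log q * pp (bb A) (cc A) i X x)
            (fun X _ _ x => (-1) * eta (pp (bb A) (cc A) i X x)), av_smul (pp (bb A) (cc A) i),
          av_smul (fun X _ _ x => eta (pp (bb A) (cc A) i X x))]
      simp only [h4]
      refine tendsto_finsetSum _ fun i _ => (gk_far A X hX q K i).add (((hκ i).const_mul _).add ?_)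
      exact (av_comp X hX (pp (bb A) (cc A) i) (pp_loc h1 h2 i) eta eta_uc (κ i) (hκ i)).const_mul _
    refine lim_le hL h3 fun n => log_div_sub _ _ _ (X n) ?_
    exact main_approx h hk q hq K (X n)
  have hc : (0 : ℝ) ≤ (cc A : ℕ) := Nat.cast_nonneg _
  refine ⟨κ, L, fun i s hs hs1 => ?_, fun q hq => ?_, hL⟩
  · have hcs : (0 : ℝ) < (cc A : ℕ) + s := by linarith
    have hsum : Summable fun k : ℕ => ((((bb A) ^ k) i i).coeff 1 : ℝ) /
        (((cc A : ℕ) : ℝ) + s) ^ (k + 1) := by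
      have hq : ((cc A : ℕ) : ℝ) / ((cc A : ℕ) + s) < 1 := by
        rw [div_lt_one hcs]
        linarith
      refine Summable.of_norm_bounded
        (g := fun k => (((cc A : ℕ) : ℝ) + s)⁻¹ * (((cc A : ℕ) : ℝ) / ((cc A : ℕ) + s)) ^ k)
        ((summable_geometric_of_lt_one (by positivity) hq).mul_left _) fun k => ?_
      rw [Real.norm_eq_abs, abs_div,
        abs_of_pos (by positivity : (0 : ℝ) < (((cc A : ℕ) : ℝ) + s) ^ (k + 1)),
        div_le_iff₀ (by positivity), div_pow]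
      have h6 : (((cc A : ℕ) : ℝ) + s)⁻¹ * (((cc A : ℕ) : ℝ) ^ k / ((cc A : ℕ) + s) ^ k) *
          ((cc A : ℕ) + s) ^ (k + 1) = ((cc A : ℕ) : ℝ) ^ k := by
        rw [pow_succ]
        field_simp
      rw [h6]
      exact bf_le X hX h1 k i
    have h6 : Tendsto (fun K => ptf (bb A) (cc A) s K i) atTop
        (𝓝 (s * green0 (bb A) (cc A) s i)) := by
      unfold ptf green0
      refine Tendsto.const_mul s ?_
      refine hsum.hasSum.tendsto_sum_nat.congr fun K => ?_
      refine Finset.sum_congr rfl fun k _ => ?_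
      rw [inv_pow, div_eq_inv_mul]
      rfl
    have h7 : Tendsto (fun K => |κ i - ptf (bb A) (cc A) s K i|) atTop
        (𝓝 |κ i - s * green0 (bb A) (cc A) s i|) := (tendsto_const_nhds.sub h6).abs
    have h8 : Tendsto (fun K => 8 * Real.sqrt s + (((cc A : ℕ) : ℝ) / ((cc A : ℕ) + s)) ^ K) atTop
        (𝓝 (8 * Real.sqrt s)) := by
      simpa using (pow_tendsto (cc A) s hs).const_add (8 * Real.sqrt s)
    exact le_of_tendsto_of_tendsto' h7 h8 fun K => hpt i s K hs hs1
  · have hC : (1 : ℝ) ≤ ((ct A q : ℕ) : ℝ) := by exact_mod_cast ct_pos A q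
    set C : ℝ := ((ct A q : ℕ) : ℝ) with hCdef
    have hsum : ∀ i, Summable fun k : ℕ => ((((dt A q) ^ (k + 1)) i i).coeff 1 : ℝ) /
        (((k : ℝ) + 1) * C ^ (k + 1)) := by
      intro i
      have hq1 : (C - 1) / C < 1 := by
        rw [div_lt_one (by linarith)]
        linarith
      have hq0 : 0 ≤ (C - 1) / C := div_nonneg (by linarith) (by linarith)
      refine Summable.of_norm_bounded
        (g := fun k => ((C - 1) / C) * ((C - 1) / C) ^ k)
        ((summable_geometric_of_lt_one hq0 hq1).mul_left _) fun k => ?_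
      rw [Real.norm_eq_abs, abs_div,
        abs_of_pos (by positivity : (0 : ℝ) < ((k : ℝ) + 1) * C ^ (k + 1)),
        div_le_iff₀ (by positivity), div_pow]
      have h6 : ((C - 1) / C) * ((C - 1) ^ k / C ^ k) *
          (((k : ℝ) + 1) * C ^ (k + 1)) = (k + 1) * (C - 1) ^ (k + 1) := by
        field_simp
        ring
      rw [h6]
      have h7 := bf_le2 X hX h hk q (k + 1) i
      have h8 : (0 : ℝ) ≤ (C - 1) ^ (k + 1) := pow_nonneg (by linarith) _
      have h9 : (0 : ℝ) ≤ k := Nat.cast_nonneg k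
      have h10 : |((((dt A q) ^ (k + 1)) i i).coeff 1 : ℝ)| ≤ (C - 1) ^ (k + 1) := h7
      nlinarith
    have h6 : Tendsto (fun K => ∑ i, (gkf A q K i + (Real.log q * κ i + (-1) * eta (κ i))))
        atTop (𝓝 (logdetA A q + Real.log q * ∑ i, κ i - ∑ i, Real.negMulLog (κ i))) := by
      have h7 : logdetA A q + Real.log q * ∑ i, κ i - ∑ i, Real.negMulLog (κ i) =
          ∑ i, (((1 / 2 * Real.log (ct A q) - Real.log q) + (-(1 / 2)) *
            ∑' k : ℕ, ((((dt A q) ^ (k + 1)) i i).coeff 1 : ℝ) / (((k : ℝ) + 1) * C ^ (k + 1))) +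
              (Real.log q * κ i + (-1) * eta (κ i))) := by
        unfold logdetA
        rw [Finset.mul_sum, ← Finset.sum_add_distrib, ← Finset.sum_sub_distrib]
        refine Finset.sum_congr rfl fun i _ => ?_
        rw [eta_eq _ (hκ0 i) (hκ1 i)]
        ring
      rw [h7]
      refine tendsto_finsetSum _ fun i _ => Tendsto.add_const _ ?_
      unfold gkf
      refine Tendsto.const_add _ (Tendsto.const_mul _ ?_)
      refine (hsum i).hasSum.tendsto_sum_nat.congr fun K => ?_
      refine Finset.sum_congr rfl fun k _ => ?_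
      rw [div_eq_inv_mul]
      rfl
    have h7 := (tendsto_const_nhds (x := L)).sub h6 |>.abs
    have h8 : Tendsto (fun K => (Fintype.card ι : ℝ) * (24 * Real.sqrt (1 / (q : ℝ)) + Er2 A q K))
        atTop (𝓝 (Fintype.card ι * (24 * Real.sqrt (1 / (q : ℝ))))) := by
      have h9 := ((Er2_tendsto A q).const_add (24 * Real.sqrt (1 / (q : ℝ)))).const_mul
        (Fintype.card ι : ℝ)
      rw [add_zero] at h9
      exact h9
    exact le_of_tendsto_of_tendsto' h7 h8 fun K => hmain q K hq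

end Pool.Agent.V8H82.HT
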