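import Pool.Agent.V8H82.DM.Loc

set_option autoImplicit false

/-!
# The Green function of an integral matrix whose hermitian part is diagonally dominant
-/

namespace Pool.Agent.V8H82.HT

open Finset Matrix Pool.Agent.V8H82.DM

variable {Y : Type} [Fintype Y] [DecidableEq Y]

/-- twice the hermitian part -/
def hp (A : Matrix Y Y ℤ) : Matrix Y Y ℤ := A + Aᵀ

theorem hp_apply (A : Matrix Y Y ℤ) (y z : Y) : hp A y z = A y z + A z y := rfl

/-- the hermitian part is diagonally dominant, and its kernel is killed by the matrix -/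
structure HD (A : Matrix Y Y ℤ) : Prop where
  dd : DD (hp A)
  ker : ∀ y, ¬ good (hp A) y → ∀ z, ∑ w, A z w * uv (hp A) y w = 0

theorem HD.ker' {A : Matrix Y Y ℤ} (h : HD A) {y : Y} (hb : ¬ good (hp A) y) (z : Y) :
    ∑ w, uv (hp A) y w * A w z = 0 := by
  have h1 := N_uv h.dd hb z
  have h2 := h.ker y hb z
  have h3 : ∑ w, hp A z w * uv (hp A) y w
      = ∑ w, A z w * uv (hp A) y w + ∑ w, uv (hp A) y w * A w z := by
    rw [← Finset.sum_add_distrib]
    refine Finset.sum_congr rfl fun w _ => ?_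
    rw [hp_apply]
    ring
  omega

theorem qf_hp (A : Matrix Y Y ℤ) (v : Y → ℝ) : qf (hp A) v = 2 * qf A v := by
  have h1 : qf (hp A) v = qf A v + ∑ y, ∑ z, (A z y : ℝ) * v y * v z := by
    unfold qf
    rw [← Finset.sum_add_distrib]
    refine Finset.sum_congr rfl fun y _ => ?_
    rw [← Finset.sum_add_distrib]
    refine Finset.sum_congr rfl fun z _ => ?_
    rw [hp_apply]
    push_cast
    ring
  have h2 : ∑ y, ∑ z, (A z y : ℝ) * v y * v z = qf A v := by
    unfold qf
    rw [Finset.sum_comm]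
    refine Finset.sum_congr rfl fun y _ => Finset.sum_congr rfl fun z _ => ?_
    ring
  rw [h1, h2]
  ring

theorem HD.qf_nonneg {A : Matrix Y Y ℤ} (h : HD A) (v : Y → ℝ) : 0 ≤ qf A v := by
  have h1 := Pool.Agent.V8H82.DM.qf_nonneg (hp A) h.dd v
  rw [qf_hp] at h1
  linarith

theorem HD.det_ne {A : Matrix Y Y ℤ} (h : HD A) (s : ℝ) (hs : 0 < s) : (Ms A s).det ≠ 0 := by
  intro h0
  obtain ⟨v, hv, hv0⟩ := Matrix.exists_mulVec_eq_zero_iff.2 h0
  have h1 := dot_Ms A s v
  rw [hv0, dotProduct_zero] at h1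
  have h2 := h.qf_nonneg v
  have h3 : 0 ≤ ∑ z, v z ^ 2 := Finset.sum_nonneg fun z _ => sq_nonneg _
  have h4 : ∑ z, v z ^ 2 = 0 := by
    by_contra h5
    have : 0 < s * ∑ z, v z ^ 2 := mul_pos hs (lt_of_le_of_ne h3 (Ne.symm h5))
    linarith
  apply hv
  funext z
  have h5 := (Finset.sum_eq_zero_iff_of_nonneg (fun z _ => sq_nonneg (v z))).1 h4 z (mem_univ z)
  simpa using h5

theorem HD.Ms_Gs {A : Matrix Y Y ℤ} (h : HD A) (s : ℝ) (hs : 0 < s) : Ms A s * Gs A s = 1 :=
  Matrix.mul_nonsing_inv _ (isUnit_iff_ne_zero.2 (h.det_ne s hs))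

theorem HD.Gs_Ms {A : Matrix Y Y ℤ} (h : HD A) (s : ℝ) (hs : 0 < s) : Gs A s * Ms A s = 1 :=
  Matrix.nonsing_inv_mul _ (isUnit_iff_ne_zero.2 (h.det_ne s hs))

/-- the path lemma for the form of `A` -/
theorem HD.path {A : Matrix Y Y ℤ} (hA : HD A) (v : Y → ℝ) (y z : Y) (ε : ℤˣ)
    (hr : (gr (hp A)).Reachable (y, 1) (z, ε))
    (h : 1 ≤ dfc (hp A) z ∨ ((ε : ℤ) : ℝ) * v z * v y ≤ 0)
    (s : ℝ) (hs : 0 < s) (hs1 : s ≤ 1 / 2) :
    Real.sqrt s / 12 * v y ^ 2 ≤ qf A v + s * ∑ z, v z ^ 2 := by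
  have h1 := path_lemma (hp A) hA.dd v y z ε hr h (2 * s) (by linarith) (by linarith)
  rw [qf_hp] at h1
  have h2 : Real.sqrt s * (4 / 3) ≤ Real.sqrt (2 * s) := by
    apply Real.le_sqrt_of_sq_le
    rw [mul_pow, Real.sq_sqrt hs.le]
    nlinarith
  have h3 := mul_le_mul_of_nonneg_right h2 (sq_nonneg (v y))
  nlinarith

/-- the Green function on the diagonal, for good vertices -/
theorem HD.green_good {A : Matrix Y Y ℤ} (hA : HD A) (y : Y) (hg : good (hp A) y) (s : ℝ)
    (hs : 0 < s) (hs1 : s ≤ 1 / 2) : 0 ≤ Gs A s y y ∧ Gs A s y y ≤ 12 / Real.sqrt s := by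
  set v : Y → ℝ := fun z => Gs A s z y with hv
  have h1 : Ms A s *ᵥ v = Pi.single y 1 := by
    have h2 := hA.Ms_Gs s hs
    funext z
    have h3 := congrFun (congrFun h2 z) y
    rw [Matrix.mul_apply] at h3
    simp only [mulVec, dotProduct, hv]
    rw [h3, Matrix.one_apply, Pi.single_apply]
  have h2 := dot_Ms A s v
  rw [h1, dotProduct_single, mul_one] at h2
  have h3 : Real.sqrt s / 12 * v y ^ 2 ≤ qf A v + s * ∑ z, v z ^ 2 := by
    rcases hg with h | ⟨z, ε, h, h'⟩
    · exact hA.path v y y (-1) h (Or.inr (by push_cast; nlinarith [sq_nonneg (v y)])) s hs hs1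
    · exact hA.path v y z ε h (Or.inl h') s hs hs1
  have h4 : 0 ≤ v y := by
    rw [h2]
    have := hA.qf_nonneg v
    have h5 : 0 ≤ s * ∑ z, v z ^ 2 := mul_nonneg hs.le (Finset.sum_nonneg fun z _ => sq_nonneg _)
    linarith
  refine ⟨h4, ?_⟩
  rw [← h2] at h3
  have h5 : 0 < Real.sqrt s := Real.sqrt_pos.2 hs
  change v y ≤ 12 / Real.sqrt s
  rw [le_div_iff₀ h5]
  by_contra h6
  push Not at h6
  have h7 : 0 < v y := by
    rcases h4.lt_or_eq with h | h
    · exact h
    · rw [← h] at h6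
      linarith
  nlinarith

/-- the Green function on the diagonal, for bad vertices -/
theorem HD.green_bad {A : Matrix Y Y ℤ} (hA : HD A) (y : Y) (hb : ¬ good (hp A) y) (s : ℝ)
    (hs : 0 < s) (hs1 : s ≤ 1 / 2) : 1 / ((cls (hp A) y).card : ℝ) / s ≤ Gs A s y y ∧
      Gs A s y y ≤ 1 / ((cls (hp A) y).card : ℝ) / s + 12 / Real.sqrt s := by
  set n : ℝ := ((cls (hp A) y).card : ℝ) with hn
  have hn0 : 0 < n := by
    have := card_cls_pos (hp A) y
    rw [hn]
    exact_mod_cast this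
  set u : Y → ℝ := fun z => (uv (hp A) y z : ℝ) with hu
  have hu1 : Ms A s *ᵥ u = s • u := by
    funext z
    rw [Ms_mulVec]
    have h1 := hA.ker y hb z
    have h2 : ∑ w, (A z w : ℝ) * u w = 0 := by
      simp only [hu]
      exact_mod_cast h1
    rw [h2, zero_add]
    rfl
  have hu2 : u ᵥ* Ms A s = s • u := by
    funext z
    rw [vecMul_Ms]
    have h1 := hA.ker' hb z
    have h2 : ∑ w, u w * (A w z : ℝ) = 0 := by
      simp only [hu]
      exact_mod_cast h1
    rw [h2, zero_add]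
    rfl
  have hu3 : Gs A s *ᵥ u = (1 / s) • u := by
    have h1 : Gs A s *ᵥ (Ms A s *ᵥ u) = u := by
      rw [mulVec_mulVec, hA.Gs_Ms s hs, one_mulVec]
    rw [hu1, mulVec_smul] at h1
    rw [← h1, smul_smul, one_div, inv_mul_cancel₀ hs.ne', one_smul, h1]
  have hu4 : u ᵥ* Gs A s = (1 / s) • u := by
    have h1 : (u ᵥ* Ms A s) ᵥ* Gs A s = u := by
      rw [vecMul_vecMul, hA.Ms_Gs s hs, vecMul_one]
    rw [hu2, smul_vecMul] at h1
    rw [← h1, smul_smul, one_div, inv_mul_cancel₀ hs.ne', one_smul, h1]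
  have hus : u ⬝ᵥ u = n := by
    have h1 := uv_sq hb
    simp only [dotProduct, hu, hn]
    have h2 : ∀ z, (uv (hp A) y z : ℝ) * (uv (hp A) y z : ℝ) = ((uv (hp A) y z ^ 2 : ℤ) : ℝ) := by
      intro z
      push_cast
      ring
    rw [Finset.sum_congr rfl fun z _ => h2 z]
    exact_mod_cast h1
  have huy : u y = 1 := by
    simp [hu, uv_self]
  set w : Y → ℝ := Pi.single y 1 - (1 / n) • u with hw
  set v : Y → ℝ := Gs A s *ᵥ w with hv
  have h1 : Ms A s *ᵥ v = w := by
    rw [hv, mulVec_mulVec, hA.Ms_Gs s hs, one_mulVec]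
  have h2 : u ⬝ᵥ v = 0 := by
    rw [hv, dotProduct_mulVec, hu4, smul_dotProduct, hw, dotProduct_sub, dotProduct_single,
      dotProduct_smul, hus, huy, smul_eq_mul, smul_eq_mul, one_div_mul_cancel hn0.ne', mul_one,
      sub_self, mul_zero]
  have h3 : v y = qf A v + s * ∑ z, v z ^ 2 := by
    rw [← dot_Ms, h1, hw, dotProduct_sub, dotProduct_smul, dotProduct_single, dotProduct_comm v u, h2]
    simp
  have h4 : Gs A s y y = 1 / n / s + v y := by
    have h5 : Gs A s *ᵥ (Pi.single y 1) = (1 / n / s) • u + v := by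
      have h6 : (Pi.single y 1 : Y → ℝ) = (1 / n) • u + w := by rw [hw]; abel
      rw [h6, mulVec_add, mulVec_smul, hu3, smul_smul]
      congr 2
      field_simp
    have h6 := congrFun h5 y
    rw [mulVec_single_one] at h6
    simp only [Pi.add_apply, Pi.smul_apply, huy, smul_eq_mul, mul_one, Matrix.col_apply] at h6
    exact h6
  have h5 : 0 ≤ v y := by
    rw [h3]
    have := hA.qf_nonneg v
    have h5 : 0 ≤ s * ∑ z, v z ^ 2 := mul_nonneg hs.le (Finset.sum_nonneg fun z _ => sq_nonneg _)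
    linarith
  have h6 : Real.sqrt s / 12 * v y ^ 2 ≤ v y := by
    obtain ⟨z, ε, hz, hz'⟩ : ∃ z ε, Reach (hp A) y z ε ∧ ((ε : ℤ) : ℝ) * v z * v y ≤ 0 := by
      by_contra hcon
      push Not at hcon
      have h7 : 0 < ∑ z, u z * v z * v y := by
        refine Finset.sum_pos' (fun z _ => ?_) ⟨y, mem_univ y, ?_⟩
        · by_cases h8 : ∃ ε, Reach (hp A) y z ε
          · obtain ⟨ε, hε⟩ := h8
            have h9 := hcon z ε hε
            simp only [hu]
            rw [uv_of_reach hb hε]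
            exact h9.le
          · push Not at h8
            simp only [hu]
            rw [uv_eq_zero h8]
            simp
        · have h9 := hcon y 1 (reach_self (hp A) y)
          rw [huy]
          simpa using h9
      rw [← Finset.sum_mul] at h7
      have h8 : ∑ z, u z * v z = 0 := h2
      rw [h8, zero_mul] at h7
      exact lt_irrefl _ h7
    have h7 := hA.path v y z ε hz (Or.inr hz') s hs hs1
    linarith
  have h7 : v y ≤ 12 / Real.sqrt s := by
    have h8 : 0 < Real.sqrt s := Real.sqrt_pos.2 hs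
    rw [le_div_iff₀ h8]
    by_contra h9
    push Not at h9
    have h10 : 0 < v y := by
      rcases h5.lt_or_eq with h | h
      · exact h
      · rw [← h] at h9
        linarith
    nlinarith
  rw [h4]
  constructor <;> linarith

end Pool.Agent.V8H82.HT
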