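import Pool.Agent.V8H82.HT.Ser

set_option autoImplicit false
set_option linter.unusedSectionVars false

/-!
# The torsion is approximated by sums of local functions
-/

namespace Pool.Agent.V8H82.HT

open Finset Matrix Filter Topology Pool.Agent.V8H82.DM
open Pool.Agent.Q181.TG (reg tc Cok Far)
open TH6.LF (adj bar)

variable {G : Type} [Group G] {ι : Type} [Fintype ι] [DecidableEq ι]
  (A : Matrix ι ι (MonoidAlgebra ℤ G))

theorem reg_mq (X : Type) [Fintype X] [DecidableEq X] [MulAction G X] (q : ℕ) :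
    reg X (q • A + 1) = mq (reg X A) q := by
  rw [reg_add, reg_nsmul, reg_one]
  rfl

theorem reg_tt (X : Type) [Fintype X] [DecidableEq X] [MulAction G X] (q : ℕ) :
    reg X (tt A q) = mq (reg X A) q * (mq (reg X A) q)ᵀ := by
  unfold tt
  rw [reg_mul, reg_adj, reg_mq]

theorem reg_dt (X : Type) [Fintype X] [DecidableEq X] [MulAction G X] (q : ℕ) :
    reg X (dt A q) = cB (mq (reg X A) q * (mq (reg X A) q)ᵀ) (ct A q) := by
  unfold dt
  rw [reg_cB, reg_tt]

theorem ct_pos (q : ℕ) : 1 ≤ ct A q := by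
  unfold ct
  omega

/-- the density of the logarithm of the determinant -/
noncomputable def gk (q K : ℕ) (i : ι) : PF G := fun X _ _ x =>
  (1 / 2 * Real.log (ct A q) - Real.log q) + (- (1 / 2)) * ∑ k ∈ range K,
    (((k : ℝ) + 1) * ((ct A q : ℕ) : ℝ) ^ (k + 1))⁻¹ * bk (dt A q) (k + 1) i X x

theorem gk_loc (q K : ℕ) (i : ι) : ALoc (gk A q K i) :=
  (ALoc.const (1 / 2 * Real.log (ct A q) - Real.log q)).add ((ALoc.sum (range K)
    (fun k => fun X _ _ x => (((k : ℝ) + 1) * ((ct A q : ℕ) : ℝ) ^ (k + 1))⁻¹ *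
      bk (dt A q) (k + 1) i X x) fun k _ => (bk_loc (dt A q) (k + 1) i).smul _).smul (-(1 / 2)))

/-- the density of the torsion -/
noncomputable def dn (q K : ℕ) : PF G := fun X _ _ x =>
  ∑ i, (gk A q K i X x + (Real.log q * pp (bb A) (cc A) i X x
    + (-1) * eta (pp (bb A) (cc A) i X x)))

variable {A}

theorem dn_loc (h : Dom2 A) (q K : ℕ) : ALoc (dn A q K) :=
  ALoc.sum univ (fun i => fun X _ _ x =>
    (gk A q K i X x + (Real.log q * pp (bb A) (cc A) i X x
      + (-1) * eta (pp (bb A) (cc A) i X x)))) fun i _ =>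
      (gk_loc A q K i).add (((pp_loc h.row h.col i).smul _).add
        (((pp_loc h.row h.col i).comp eta eta_uc).smul _))

variable (A)

open Classical in
theorem sum_gk (q K : ℕ) (X : Type) [Fintype X] [MulAction G X] :
    ∑ x : X, ∑ i, gk A q K i X x = 1 / 2 * (((Fintype.card (X × ι) : ℕ) : ℝ) * Real.log (ct A q) -
      ∑ k ∈ range K, ((((reg X (dt A q)) ^ (k + 1)).trace : ℤ) : ℝ) /
        (((k : ℝ) + 1) * ((ct A q : ℕ) : ℝ) ^ (k + 1)))
      - ((Fintype.card (X × ι) : ℕ) : ℝ) * Real.log q := by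
  unfold gk
  rw [← Fintype.sum_prod_type' (f := fun (x : X) (i : ι) =>
    (1 / 2 * Real.log (ct A q) - Real.log q) + (- (1 / 2)) * ∑ k ∈ range K,
      (((k : ℝ) + 1) * ((ct A q : ℕ) : ℝ) ^ (k + 1))⁻¹ * bk (dt A q) (k + 1) i X x),
    Finset.sum_add_distrib, Finset.sum_const, nsmul_eq_mul, Finset.card_univ, ← Finset.mul_sum,
    Finset.sum_comm]
  have h1 : ∑ k ∈ range K, ∑ x : X × ι, (((k : ℝ) + 1) * ((ct A q : ℕ) : ℝ) ^ (k + 1))⁻¹ *
      bk (dt A q) (k + 1) x.2 X x.1 = ∑ k ∈ range K, ((((reg X (dt A q)) ^ (k + 1)).trace : ℤ) : ℝ) /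
        (((k : ℝ) + 1) * ((ct A q : ℕ) : ℝ) ^ (k + 1)) := by
    refine Finset.sum_congr rfl fun k _ => ?_
    rw [← Finset.mul_sum, div_eq_inv_mul]
    congr 1
    simp only [Matrix.trace, Matrix.diag_apply, bk]
    push_cast
    rfl
  rw [h1]
  ring

/-- the error term -/
noncomputable def Er2 (q K : ℕ) : ℝ := ((ct A q : ℕ) : ℝ) * (1 - 1 / ((ct A q : ℕ) : ℝ)) ^ (K + 1) / 2

theorem Er2_tendsto (q : ℕ) : Tendsto (fun K => Er2 A q K) atTop (𝓝 0) := by
  have hC : (1 : ℝ) ≤ ((ct A q : ℕ) : ℝ) := by exact_mod_cast ct_pos A q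
  have h1 : Tendsto (fun K : ℕ => (1 - 1 / ((ct A q : ℕ) : ℝ)) ^ K) atTop (𝓝 0) := by
    refine tendsto_pow_atTop_nhds_zero_of_lt_one ?_ ?_
    · have : 1 / ((ct A q : ℕ) : ℝ) ≤ 1 := by
        rw [div_le_one (by linarith)]
        exact hC
      linarith
    · have : 0 < 1 / ((ct A q : ℕ) : ℝ) := by positivity
      linarith
  have h2 := ((tendsto_add_atTop_iff_nat 1).2 h1).const_mul (((ct A q : ℕ) : ℝ))
  have h3 := h2.div_const 2
  simpa [Er2] using h3

variable {A}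

/-- **the torsion is approximated by sums of local functions** -/
theorem main_approx (h : Dom2 A) (hk : KerCond A) (q : ℕ) (hq : 2 ≤ q) (K : ℕ)
    (X : Type) [Fintype X] [MulAction G X] :
    |Real.log (tc (Cok (reg X A))) - ∑ x : X, dn A q K X x| ≤ Fintype.card X * (Fintype.card ι *
      (24 * Real.sqrt (1 / q) + Er2 A q K)) := by
  classical
  have hHD := HD_reg h hk X
  have hq1 : 1 ≤ q := by omega
  have hq' : (2 : ℝ) ≤ q := by exact_mod_cast hq
  have hs : (0 : ℝ) < 1 / q := by positivity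
  have hs1 : (1 : ℝ) / q ≤ 1 / 2 := by
    rw [div_le_div_iff₀ (by linarith) (by norm_num)]
    linarith
  have h5 := er_le (reg X A) hHD (1 / q) hs hs1
  have hrow : ∀ y, ∑ z, |(mq (reg X A) q * (mq (reg X A) q)ᵀ) y z| ≤ ct A q := by
    rw [← reg_tt]
    exact reg_row X _ _ (tt_row A q)
  have hcol : ∀ y, ∑ z, |(mq (reg X A) q * (mq (reg X A) q)ᵀ) z y| ≤ ct A q := by
    rw [← reg_tt]
    exact reg_col X _ _ (tt_col A q)
  have h6 := log_Ms hHD q (ct A q) hrow hcol hq1 (ct_pos A q) K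
  rw [← reg_dt] at h6
  have h7 : ∑ x : X, dn A q K X x = (∑ x : X, ∑ i, gk A q K i X x) + Real.log q *
      ∑ y, Pf (hp (reg X A)) y - ∑ y, Real.negMulLog (Pf (hp (reg X A)) y) := by
    unfold dn
    simp only [Finset.sum_add_distrib]
    rw [← Fintype.sum_prod_type' (f := fun (x : X) (i : ι) =>
        Real.log q * pp (bb A) (cc A) i X x),
      ← Fintype.sum_prod_type' (f := fun (x : X) (i : ι) => -1 * eta (pp (bb A) (cc A) i X x)),
      ← Finset.mul_sum, ← Finset.mul_sum]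
    have h8 : ∀ y : X × ι, pp (bb A) (cc A) y.2 X y.1 = Pf (hp (reg X A)) y := fun y => by
      rw [hp_cB]
      unfold pp
      congr
    have h9 : ∀ y : X × ι, eta (Pf (hp (reg X A)) y) = Real.negMulLog (Pf (hp (reg X A)) y) :=
      fun y => eta_eq _ (Pf_nonneg _ _) (Pf_le_one _ _)
    simp only [h8, h9]
    ring
  rw [h7, sum_gk]
  have h10 : Real.log (1 / (q : ℝ)) = - Real.log q := by rw [one_div, Real.log_inv]
  unfold er at h5
  rw [h10] at h5
  have h11 : ((Fintype.card (X × ι) : ℕ) : ℝ) = Fintype.card X * Fintype.card ι := by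
    rw [Fintype.card_prod]
    push_cast
    ring
  have h12 : (Fintype.card X : ℝ) * (Fintype.card ι * (24 * Real.sqrt (1 / q) + Er2 A q K))
      = 24 * ((Fintype.card (X × ι) : ℕ) : ℝ) * Real.sqrt (1 / q)
        + ((Fintype.card (X × ι) : ℕ) : ℝ) * (((ct A q : ℕ) : ℝ) *
          (1 - 1 / ((ct A q : ℕ) : ℝ)) ^ (K + 1)) / 2 := by
    rw [h11]
    unfold Er2
    ring
  rw [h12]
  rw [abs_le] at h5 h6 ⊢
  constructor <;> linarith [h5.1, h5.2, h6.1, h6.2]

theorem testable (h : Dom2 A) (hk : KerCond A) (ε : ℝ) (hε : 0 < ε) : ∃ (q K : ℕ), 2 ≤ q ∧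
    ∀ (X : Type) [Fintype X] [MulAction G X],
      |Real.log (tc (Cok (reg X A))) - ∑ x : X, dn A q K X x| ≤ Fintype.card X * ε := by
  set m : ℝ := (Fintype.card ι : ℝ) + 1 with hm
  have hm0 : (0 : ℝ) ≤ Fintype.card ι := Nat.cast_nonneg _
  have hm1 : 0 < m := by linarith
  have h1 : Tendsto (fun q : ℕ => 24 * Real.sqrt (1 / (q : ℝ))) atTop (𝓝 0) := by
    have h2 : Tendsto (fun q : ℕ => (1 : ℝ) / (q : ℝ)) atTop (𝓝 0) :=
      tendsto_one_div_atTop_nhds_zero_nat
    have h3 := (((Real.continuous_sqrt.tendsto 0).comp h2).const_mul (24 : ℝ))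
    simpa [Function.comp_def] using h3
  obtain ⟨q, hq1, hq2⟩ := ((h1.eventually_le_const
    (show (0 : ℝ) < ε / (2 * m) by positivity)).and (eventually_ge_atTop 2)).exists
  obtain ⟨K, hK⟩ := ((Er2_tendsto A q).eventually_le_const
    (show (0 : ℝ) < ε / (2 * m) by positivity)).exists
  refine ⟨q, K, hq2, fun X _ _ => ?_⟩
  refine (main_approx h hk q hq2 K X).trans ?_
  refine mul_le_mul_of_nonneg_left ?_ (Nat.cast_nonneg _)
  have hC : (1 : ℝ) ≤ ((ct A q : ℕ) : ℝ) := by exact_mod_cast ct_pos A q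
  have hEr : 0 ≤ Er2 A q K := by
    unfold Er2
    have : 1 / ((ct A q : ℕ) : ℝ) ≤ 1 := by
      rw [div_le_one (by linarith)]
      exact hC
    have h4 : (0 : ℝ) ≤ 1 - 1 / ((ct A q : ℕ) : ℝ) := by linarith
    positivity
  have h3 : 24 * Real.sqrt (1 / (q : ℝ)) + Er2 A q K ≤ ε / m := by
    have h4 : ε / m = ε / (2 * m) + ε / (2 * m) := by
      field_simp
      ring
    rw [h4]
    exact add_le_add hq1 hK
  have h4 : 0 ≤ 24 * Real.sqrt (1 / (q : ℝ)) + Er2 A q K := by positivity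
  calc (Fintype.card ι : ℝ) * (24 * Real.sqrt (1 / (q : ℝ)) + Er2 A q K) ≤
        m * (ε / m) := mul_le_mul (by linarith) h3 h4 hm1.le
    _ = ε := by field_simp

/-- convergence along all Benjamini-Schramm convergent sequences -/
theorem conv_BS (h : Dom2 A) (hk : KerCond A) (X : ℕ → Type)
    [∀ n, Fintype (X n)] [∀ n, Nonempty (X n)] [∀ n, MulAction G (X n)] (hX : BSConv G X) :
    ∃ L : ℝ, Tendsto (fun n => Real.log (tc (Cok (reg (X n) A))) / Fintype.card (X n)) atTop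
      (𝓝 L) := by
  refine conv_of_approx _ fun ε hε => ?_
  obtain ⟨q, K, hq, h3⟩ := testable h hk ε hε
  exact ⟨fun n => av (dn A q K) (X n), av_BS X hX _ (dn_loc h q K), fun n =>
    log_div_sub _ _ _ (X n) (h3 (X n))⟩

end Pool.Agent.V8H82.HT
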