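import Pool.Agent.V8H82.HT.Det
import Pool.Agent.V8H82.DM.Dom
import Pool.Agent.TH6.LF.Bar

set_option autoImplicit false
set_option linter.unusedSectionVars false

/-!
# The matrices of finite `G`-sets
-/

namespace Pool.Agent.V8H82.HT

open Finset Matrix Filter Topology Pool.Agent.V8H82.DM
open Pool.Agent.Q181.TG (reg tc Cok Far)
open TH6.LF (adj bar)

variable {G : Type} [Group G]

section reg

variable (X : Type) [Fintype X] [DecidableEq X] [MulAction G X]

theorem pr_bar (a : MonoidAlgebra ℤ G) (x y : X) : pr X (bar a) x y = pr X a y x := by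
  induction a using MonoidAlgebra.induction_linear with
  | zero => simp [TH6.LF.bar_zero]
  | add a b ha hb =>
    rw [TH6.LF.bar_add, map_add, map_add, Matrix.add_apply, Matrix.add_apply, ha, hb]
  | single g r =>
    rw [TH6.LF.bar_single]
    unfold pr
    rw [MonoidAlgebra.lift_single, MonoidAlgebra.lift_single, Matrix.smul_apply, Matrix.smul_apply]
    congr 1
    change (if g⁻¹ • y = x then (1 : ℤ) else 0) = if g • x = y then 1 else 0
    refine if_congr ?_ rfl rfl
    rw [inv_smul_eq_iff]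
    exact eq_comm

theorem reg_adj {ι κ : Type} (A : Matrix ι κ (MonoidAlgebra ℤ G)) :
    reg X (adj A) = (reg X A)ᵀ := by
  ext p q
  rw [Matrix.transpose_apply, reg_eq, reg_eq, TH6.LF.adj_apply, pr_bar]

theorem reg_add {ι κ : Type} (A B : Matrix ι κ (MonoidAlgebra ℤ G)) :
    reg X (A + B) = reg X A + reg X B := by
  ext p q
  rw [Matrix.add_apply, reg_eq, reg_eq, reg_eq, Matrix.add_apply, map_add, Matrix.add_apply]

theorem reg_nsmul {ι κ : Type} (A : Matrix ι κ (MonoidAlgebra ℤ G)) (q : ℕ) :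
    reg X (q • A) = q • reg X A := by
  ext p r
  rw [Matrix.smul_apply, reg_eq, reg_eq, Matrix.smul_apply, map_nsmul, Matrix.smul_apply]

theorem hp_reg {ι : Type} [Fintype ι] (A : Matrix ι ι (MonoidAlgebra ℤ G)) :
    hp (reg X A) = reg X (A + adj A) := by
  rw [reg_add, reg_adj]
  rfl

end reg

section defs

variable {ι : Type} [Fintype ι] [DecidableEq ι] (A : Matrix ι ι (MonoidAlgebra ℤ G))

/-- a bound for the diagonal coefficients of `A + A^*` -/
noncomputable def cc : ℕ := ∑ i, (((A + adj A) i i).coeff 1).natAbs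

/-- `c - (A + A^*)` -/
noncomputable def bb : Matrix ι ι (MonoidAlgebra ℤ G) :=
  cc A • (1 : Matrix ι ι (MonoidAlgebra ℤ G)) - (A + adj A)

/-- `(q A + 1) (q A + 1)^*` -/
noncomputable def tt (q : ℕ) : Matrix ι ι (MonoidAlgebra ℤ G) :=
  (q • A + 1) * adj (q • A + 1)

/-- a bound for the norm of `tt` -/
noncomputable def ct (q : ℕ) : ℕ := (∑ i, ∑ j, nm (tt A q i j)).natAbs + 1

/-- the difference `ct - tt` -/
noncomputable def dt (q : ℕ) : Matrix ι ι (MonoidAlgebra ℤ G) :=
  ct A q • (1 : Matrix ι ι (MonoidAlgebra ℤ G)) - tt A q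

theorem nm_nonneg (a : MonoidAlgebra ℤ G) : 0 ≤ nm a := Finset.sum_nonneg fun _ _ => abs_nonneg _

theorem tt_row (q : ℕ) (i : ι) : ∑ j, nm (tt A q i j) ≤ ct A q := by
  have h1 : ∑ j, nm (tt A q i j) ≤ ∑ i, ∑ j, nm (tt A q i j) :=
    Finset.single_le_sum (f := fun i => ∑ j, nm (tt A q i j))
      (fun i _ => Finset.sum_nonneg fun j _ => nm_nonneg _) (mem_univ i)
  unfold ct
  push_cast
  have h2 := le_abs_self (∑ i, ∑ j, nm (tt A q i j))
  omega

theorem tt_col (q : ℕ) (j : ι) : ∑ i, nm (tt A q i j) ≤ ct A q := by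
  have h1 : ∑ i, nm (tt A q i j) ≤ ∑ j, ∑ i, nm (tt A q i j) :=
    Finset.single_le_sum (f := fun j => ∑ i, nm (tt A q i j))
      (fun i _ => Finset.sum_nonneg fun j _ => nm_nonneg _) (mem_univ j)
  rw [Finset.sum_comm] at h1
  unfold ct
  push_cast
  have h2 := le_abs_self (∑ i, ∑ j, nm (tt A q i j))
  omega

/-- the hermitian part is weakly diagonally dominant -/
def Dom2 : Prop := ∀ i, ∑ j, nm ((A + adj A) i j) ≤ 2 * ((A + adj A) i i).coeff 1

theorem nm_bar (a : MonoidAlgebra ℤ G) : nm (bar a) = nm a := by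
  classical
  have h1 : (bar a).coeff.support ⊆ a.coeff.support.image (·⁻¹) := by
    intro h hh
    rw [Finsupp.mem_support_iff, TH6.LF.coeff_bar] at hh
    rw [Finset.mem_image]
    exact ⟨h⁻¹, Finsupp.mem_support_iff.2 hh, inv_inv h⟩
  rw [nm_eq_sum _ _ h1, Finset.sum_image (fun x _ y _ h => inv_injective h)]
  unfold nm
  refine Finset.sum_congr rfl fun h _ => ?_
  rw [TH6.LF.coeff_bar, inv_inv]

variable {A}

theorem Dom2.nonneg (h : Dom2 A) (i : ι) : 0 ≤ ((A + adj A) i i).coeff 1 := by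
  have h1 := h i
  have h2 : 0 ≤ ∑ j, nm ((A + adj A) i j) := Finset.sum_nonneg fun j _ => nm_nonneg _
  omega

theorem Dom2.row (h : Dom2 A) (i : ι) : ∑ j, nm (bb A i j) ≤ cc A := by
  have h0 := h.nonneg i
  have hc : ((A + adj A) i i).coeff 1 ≤ (cc A : ℤ) := by
    have h1 : (((A + adj A) i i).coeff 1).natAbs ≤ cc A :=
      Finset.single_le_sum (f := fun i => (((A + adj A) i i).coeff 1).natAbs)
        (fun i _ => Nat.zero_le _) (mem_univ i)
    omega
  rw [← Finset.add_sum_erase _ _ (mem_univ i)]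
  have h1 : nm (bb A i i) ≤ nm ((A + adj A) i i) + cc A - 2 * ((A + adj A) i i).coeff 1 := by
    have h2 : bb A i i = cc A • (1 : MonoidAlgebra ℤ G) - (A + adj A) i i := by
      unfold bb
      rw [Matrix.sub_apply, Matrix.smul_apply, Matrix.one_apply_eq]
    rw [h2]
    exact nm_sub _ _ h0 hc
  have h3 : ∑ j ∈ univ.erase i, nm (bb A i j) = ∑ j ∈ univ.erase i, nm ((A + adj A) i j) := by
    refine Finset.sum_congr rfl fun j hj => ?_
    have h4 : i ≠ j := fun h => (Finset.ne_of_mem_erase hj) h.symm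
    have h2 : bb A i j = -((A + adj A) i j) := by
      unfold bb
      rw [Matrix.sub_apply, Matrix.smul_apply, Matrix.one_apply_ne h4, smul_zero, zero_sub]
    rw [h2, nm_neg]
  rw [h3]
  have h5 := h i
  rw [← Finset.add_sum_erase _ _ (mem_univ i)] at h5
  omega

theorem Dom2.col (h : Dom2 A) (j : ι) : ∑ i, nm (bb A i j) ≤ cc A := by
  refine le_trans (le_of_eq ?_) (h.row j)
  refine Finset.sum_congr rfl fun i _ => ?_
  have h1 : bb A i j = bar (bb A j i) := by
    have h2 : adj (A + adj A) = A + adj A := by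
      rw [TH6.LF.adj_add, TH6.LF.adj_adj, add_comm]
    have h3 : (A + adj A) i j = bar ((A + adj A) j i) := by
      have := congrFun (congrFun h2 i) j
      rw [TH6.LF.adj_apply] at this
      exact this.symm
    unfold bb
    rw [Matrix.sub_apply, Matrix.sub_apply, TH6.LF.bar_sub, ← h3, Matrix.smul_apply,
      Matrix.smul_apply]
    congr 1
    by_cases hij : i = j
    · subst hij
      rw [Matrix.one_apply_eq, nsmul_one, ← Int.cast_natCast, ← zsmul_one, TH6.LF.bar_zsmul,
        TH6.LF.bar_one]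
    · rw [Matrix.one_apply_ne hij, Matrix.one_apply_ne (Ne.symm hij), smul_zero, TH6.LF.bar_zero]
  rw [h1, nm_bar]

theorem hp_cB (X : Type) [Fintype X] [DecidableEq X] [MulAction G X] :
    hp (reg X A) = cB (reg X (bb A)) (cc A) := by
  rw [hp_reg, ← reg_cB]
  congr 1
  unfold bb
  abel

/-- the kernels of the hermitian part are killed -/
def KerCond (A : Matrix ι ι (MonoidAlgebra ℤ G)) : Prop :=
  ∀ (X : Type) [Fintype X] [MulAction G X] (v : X × ι → ℤ),
    (∀ p, ∑ q, reg X (A + adj A) p q * v q = 0) → ∀ p, ∑ q, reg X A p q * v q = 0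

theorem HD_reg (h : Dom2 A) (hk : KerCond A) (X : Type) [Fintype X] [DecidableEq X]
    [MulAction G X] : HD (reg X A) := by
  have h1 : DD (hp (reg X A)) := by
    rw [hp_cB]
    exact cB_DD _ _ (reg_row X _ _ h.row) (reg_col X _ _ h.col)
  refine ⟨h1, fun y hy z => ?_⟩
  have h2 := hk X (uv (hp (reg X A)) y) (fun p => by
    have h3 := N_uv h1 hy p
    rw [hp_reg] at h3 ⊢
    convert h3 using 2)
  convert h2 z using 2

end defs

end Pool.Agent.V8H82.HT
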