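import Pool.Agent.V8H82.HT.Reg
import Pool.Agent.V8H36.LS.Ser

set_option autoImplicit false
set_option linter.unusedSectionVars false

/-!
# A power series for the logarithm of the determinant of `A + 1 / q`
-/

namespace Pool.Agent.V8H82.HT

open Finset Matrix Filter Topology Pool.Agent.V8H82.DM

variable {Y : Type} [Fintype Y] [DecidableEq Y]

theorem dot_map (N : Matrix Y Y ℤ) (v : Y → ℝ) :
    v ⬝ᵥ ((N.map (fun x : ℤ => (x : ℝ))) *ᵥ v) = qf N v := by
  have h1 := dot_Ms N 0 v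
  unfold Ms at h1
  rw [zero_smul, add_zero, zero_mul, add_zero] at h1
  exact h1

theorem qf_cB (T : Matrix Y Y ℤ) (C : ℕ) (v : Y → ℝ) :
    qf (cB T C) v = C * ∑ z, v z ^ 2 - qf T v := by
  unfold qf cB
  have h1 : ∀ y z, (((((C : ℤ) • (1 : Matrix Y Y ℤ) - T) y z : ℤ) : ℝ)) * v y * v z
      = (if y = z then (C : ℝ) * v y ^ 2 else 0) - (T y z : ℝ) * v y * v z := by
    intro y z
    rw [Matrix.sub_apply, Matrix.smul_apply, Matrix.one_apply]
    by_cases h : y = z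
    · subst h
      simp
      ring
    · simp [h]
  simp only [h1, Finset.sum_sub_distrib, Finset.sum_ite_eq, mem_univ, if_true, Finset.mul_sum]

/-- the matrix `q A + 1` -/
def mq (A : Matrix Y Y ℤ) (q : ℕ) : Matrix Y Y ℤ := q • A + 1

theorem qf_gram (M : Matrix Y Y ℤ) (v : Y → ℝ) :
    qf (M * Mᵀ) v = ∑ x, (∑ y, (M y x : ℝ) * v y) ^ 2 := by
  unfold qf
  have h1 : ∀ y z, (((M * Mᵀ) y z : ℤ) : ℝ) * v y * v z
      = ∑ x, ((M y x : ℝ) * v y) * ((M z x : ℝ) * v z) := by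
    intro y z
    rw [Matrix.mul_apply]
    push_cast
    rw [Finset.sum_mul, Finset.sum_mul]
    refine Finset.sum_congr rfl fun x _ => ?_
    rw [Matrix.transpose_apply]
    ring
  simp only [h1]
  have h2 : ∀ x, (∑ y, (M y x : ℝ) * v y) ^ 2
      = ∑ y, ∑ z, ((M y x : ℝ) * v y) * ((M z x : ℝ) * v z) := by
    intro x
    rw [sq, Finset.sum_mul_sum]
  simp only [h2]
  rw [Finset.sum_comm' (s := univ) (t := fun _ => univ) (t' := univ) (s' := fun _ => univ)
    (by simp)]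
  conv_rhs => rw [Finset.sum_comm]
  rw [Finset.sum_comm]
  refine Finset.sum_congr rfl fun y _ => ?_
  rw [Finset.sum_comm]

theorem form_low {A : Matrix Y Y ℤ} (hA : HD A) (q : ℕ) (v : Y → ℝ) :
    ∑ z, v z ^ 2 ≤ qf (mq A q * (mq A q)ᵀ) v := by
  rw [qf_gram]
  set w : Y → ℝ := fun x => ∑ y, (mq A q y x : ℝ) * v y with hw
  change ∑ z, v z ^ 2 ≤ ∑ x, w x ^ 2
  have h1 : ∑ x, v x * w x = q * qf A v + ∑ z, v z ^ 2 := by
    have h2 : ∀ x, v x * w x = q * (∑ y, (A y x : ℝ) * v y * v x) + v x ^ 2 := by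
      intro x
      have h3 : w x = q * (∑ y, (A y x : ℝ) * v y) + v x := by
        have h4 : ∀ y, (mq A q y x : ℝ) * v y = q * ((A y x : ℝ) * v y) + if y = x then v x else 0 := by
          intro y
          unfold mq
          rw [Matrix.add_apply, Matrix.smul_apply, Matrix.one_apply]
          by_cases h : y = x
          · subst h
            simp
            ring
          · simp [h]
            ring
        simp only [hw, h4, Finset.sum_add_distrib, Finset.sum_ite_eq', mem_univ, if_true,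
          Finset.mul_sum]
      rw [h3, ← Finset.sum_mul]
      ring
    simp only [h2, Finset.sum_add_distrib, ← Finset.mul_sum]
    congr 2
    unfold qf
    rw [Finset.sum_comm]
  have h2 := hA.qf_nonneg v
  have h3 : ∑ z, v z ^ 2 ≤ ∑ x, v x * w x := by
    rw [h1]
    have : 0 ≤ (q : ℝ) * qf A v := mul_nonneg (Nat.cast_nonneg q) h2
    linarith
  have h4 : (∑ x, v x * w x) ^ 2 ≤ (∑ x, v x ^ 2) * ∑ x, w x ^ 2 :=
    Finset.sum_mul_sq_le_sq_mul_sq univ v w
  have h5 : 0 ≤ ∑ z, v z ^ 2 := Finset.sum_nonneg fun z _ => sq_nonneg _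
  rcases h5.eq_or_lt with h6 | h6
  · rw [← h6]
    exact Finset.sum_nonneg fun z _ => sq_nonneg _
  · nlinarith

theorem Ms_inv (A : Matrix Y Y ℤ) (q : ℕ) (hq : 1 ≤ q) :
    (mq A q).map (fun x : ℤ => (x : ℝ)) = (q : ℝ) • Ms A (1 / q) := by
  have hq' : (q : ℝ) ≠ 0 := by
    have : (1 : ℝ) ≤ q := by exact_mod_cast hq
    linarith
  ext y z
  unfold mq Ms
  simp only [Matrix.map_apply, Matrix.add_apply, Matrix.smul_apply, Matrix.one_apply, smul_eq_mul]
  push_cast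
  by_cases h : y = z
  · simp only [h, if_true, nsmul_eq_mul, mul_one]
    push_cast
    field_simp
  · simp only [h, if_false, nsmul_eq_mul, mul_zero, add_zero]
    push_cast
    ring

theorem log_det_gram {A : Matrix Y Y ℤ} (hA : HD A) (q : ℕ) (hq : 1 ≤ q) :
    Real.log ((mq A q * (mq A q)ᵀ).map (fun x : ℤ => (x : ℝ))).det
      = 2 * (Fintype.card Y * Real.log q + Real.log (Ms A (1 / q)).det) := by
  have hq' : (0 : ℝ) < q := by exact_mod_cast hq
  have h1 : (mq A q * (mq A q)ᵀ).map (fun x : ℤ => (x : ℝ))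
      = ((q : ℝ) • Ms A (1 / q)) * ((q : ℝ) • Ms A (1 / q))ᵀ := by
    rw [← Ms_inv A q hq]
    have h2 := Matrix.map_mul (L := mq A q) (M := (mq A q)ᵀ) (f := Int.castRingHom ℝ)
    exact h2
  have hd := hA.det_ne (1 / q) (by positivity)
  rw [h1, Matrix.det_mul, Matrix.det_transpose, Matrix.det_smul, ← sq, Real.log_pow,
    Real.log_mul (by positivity) hd, Real.log_pow]
  push_cast
  ring

section
variable {A : Matrix Y Y ℤ} (hA : HD A) (q : ℕ) (C : ℕ)
  (h1 : ∀ y, ∑ z, |(mq A q * (mq A q)ᵀ) y z| ≤ C) (h2 : ∀ y, ∑ z, |(mq A q * (mq A q)ᵀ) z y| ≤ C)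
include hA h1 h2

theorem cB_symm : (cB (mq A q * (mq A q)ᵀ) C)ᵀ = cB (mq A q * (mq A q)ᵀ) C := by
  unfold cB
  rw [Matrix.transpose_sub, Matrix.transpose_smul, Matrix.transpose_one, Matrix.transpose_mul,
    Matrix.transpose_transpose]

theorem cB_low (v : Y → ℝ) :
    0 ≤ v ⬝ᵥ (((cB (mq A q * (mq A q)ᵀ) C).map (fun x : ℤ => (x : ℝ))) *ᵥ v) := by
  rw [dot_map]
  exact Pool.Agent.V8H82.DM.qf_nonneg _ (cB_DD _ C h1 h2) v

theorem cB_up (v : Y → ℝ) :
    v ⬝ᵥ (((cB (mq A q * (mq A q)ᵀ) C).map (fun x : ℤ => (x : ℝ))) *ᵥ v)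
      ≤ ((C : ℝ) - 1) * ∑ z, v z ^ 2 := by
  rw [dot_map, qf_cB]
  have := form_low hA q v
  linarith

theorem log_Ms (hq : 1 ≤ q) (hC : 1 ≤ C) (K : ℕ) :
    |Real.log (Ms A (1 / q)).det - (1 / 2 * ((Fintype.card Y : ℝ) * Real.log C -
      ∑ k ∈ range K, ((((cB (mq A q * (mq A q)ᵀ) C) ^ (k + 1)).trace : ℤ) : ℝ) /
        (((k : ℝ) + 1) * (C : ℝ) ^ (k + 1))) - Fintype.card Y * Real.log q)|
      ≤ (Fintype.card Y : ℝ) * ((C : ℝ) * (1 - 1 / (C : ℝ)) ^ (K + 1)) / 2 := by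
  have h3 := Pool.Agent.V8H36.LS.log_series (cB (mq A q * (mq A q)ᵀ) C)
    (cB_symm hA q C h1 h2) C hC (cB_low hA q C h1 h2) (cB_up hA q C h1 h2) K
  have h4 : (C : ℝ) • (1 : Matrix Y Y ℝ)
      - (cB (mq A q * (mq A q)ᵀ) C).map (fun x : ℤ => (x : ℝ))
      = (mq A q * (mq A q)ᵀ).map (fun x : ℤ => (x : ℝ)) := by
    ext y z
    unfold cB
    simp only [Matrix.sub_apply, Matrix.map_apply, Matrix.smul_apply, Matrix.one_apply, smul_eq_mul]
    push_cast
    split_ifs <;> ring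
  rw [h4, log_det_gram hA q hq] at h3
  rw [abs_le] at h3 ⊢
  constructor <;> linarith [h3.1, h3.2]

end

end Pool.Agent.V8H82.HT
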